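import Pool.Agent.Lib.MP_1a91b9_nuY.TS.Proj

/-!
# The decomposition groups at the places above `b` in an extension of degree `ℓ`
-/

set_option autoImplicit false
set_option linter.unusedSectionVars false

namespace Pool.Agent.Lib.MP_1a91b9_nuY.TS

open NumberField IsDedekindDomain WeierstrassCurve Pool.Agent.Lib.MP_1a91b9_nuT
open Pool.Agent.Lib.MP_1a91b9_nuX Pool.Agent.Lib.MP_1a91b9_nuX.DB Pool.Agent.Lib.MP_1a91b9_nuX.DX
open Pool.Agent.Lib.MP_1a91b9_nuX.DS
open Pool.Agent.Lib.MP_1a91b9_nuW.W Pool.Agent.Lib.MP_1a91b9_nuW.DS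

variable [CD]

universe u

section
variable {F G : Type u} [Field F] [NumberField F] [Algebra K F]
  [Field G] [NumberField G] [Algebra K G] [Algebra F G] [IsScalarTower K F G] [IsGalois F G]
  {k : Gal(G/F) → 𝓞 K}

/-- the condition for the untwisted action over `G` is stronger -/
theorem dtk_of_dtb (hk : Kap F G k) {b ϖ : 𝓞 K} (hD : DTb b ϖ G) : DTK F G k b ϖ := by
  intro N _ _ _ _ _ _ _ _ _ _ P hP v hv
  have iG : IsGalois G N := IsGalois.tower_top_of_isGalois F G N
  obtain ⟨σ, hσ1, hσ⟩ := hD N P hP v hv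
  refine ⟨toF F σ, fun h => hσ1 (hP.gen σ ?_), hσ⟩
  rwa [gk_toF hk] at h

end

private theorem dt_gplc {L : Type u} [Field L] [NumberField L] {A B : Type u} [Field A] [Field B]
    [Algebra A L] [Algebra B L] (σ : Gal(L/A)) (τ : Gal(L/B))
    (h : ∀ y : L, σ (τ y) = τ (σ y)) (V : HeightOneSpectrum (𝓞 L)) :
    gpl σ (gpl τ V) = gpl τ (gpl σ V) := by
  apply HeightOneSpectrum.ext
  ext x
  change τ⁻¹ • σ⁻¹ • x ∈ V.asIdeal ↔ σ⁻¹ • τ⁻¹ • x ∈ V.asIdeal
  have e : τ⁻¹ • σ⁻¹ • x = σ⁻¹ • τ⁻¹ • x := by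
    apply RingOfIntegers.ext
    change τ⁻¹ (σ⁻¹ (x : L)) = σ⁻¹ (τ⁻¹ (x : L))
    apply τ.injective
    apply σ.injective
    have e1 : τ (τ⁻¹ (σ⁻¹ (x : L))) = σ⁻¹ (x : L) := τ.apply_symm_apply _
    have e2 : σ (σ⁻¹ (x : L)) = x := σ.apply_symm_apply x
    have e3 : σ (σ⁻¹ (τ⁻¹ (x : L))) = τ⁻¹ (x : L) := σ.apply_symm_apply _
    have e4 : τ (τ⁻¹ (x : L)) = x := τ.apply_symm_apply x
    rw [e1, e2, h, e3, e4]
  rw [e]

section
variable {F F' G G' N N' : Type u}
  [Field F] [NumberField F] [Algebra K F]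
  [Field F'] [NumberField F'] [Algebra K F'] [Algebra F F'] [IsScalarTower K F F'] [IsGalois F F']
  [Field G] [NumberField G] [Algebra K G] [Algebra F G] [IsScalarTower K F G] [IsGalois F G]
  [Field G'] [NumberField G'] [Algebra K G'] [Algebra F' G'] [IsScalarTower K F' G']
  [IsGalois F' G'] [Algebra G G'] [IsScalarTower K G G'] [IsGalois G G'] [Algebra F G']
  [IsScalarTower F F' G'] [IsScalarTower F G G'] [IsScalarTower K F G'] [IsGalois F G']
  [Field N] [NumberField N] [Algebra K N] [Algebra F N] [Algebra G N] [IsScalarTower K F N]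
  [IsScalarTower K G N] [IsScalarTower F G N] [DecidableEq N] [IsGalois F N] [IsGalois G N]
  [Field N'] [NumberField N'] [Algebra K N'] [Algebra F' N'] [Algebra G' N']
  [IsScalarTower K F' N'] [IsScalarTower K G' N'] [IsScalarTower F' G' N'] [DecidableEq N']
  [IsGalois F' N'] [IsGalois G' N'] [Algebra F N'] [Algebra G N'] [Algebra N N']
  [IsScalarTower F F' N'] [IsScalarTower K F N'] [IsScalarTower K G N'] [IsScalarTower G G' N']
  [IsScalarTower K N N'] [IsScalarTower F N N'] [IsScalarTower G N N'] [IsScalarTower F G N']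
  [IsScalarTower F G' N'] [IsGalois F N'] [IsGalois G N'] [IsGalois N N']
  {ϖ : 𝓞 K} {ℓ q : ℕ} (hQ : SqF F F' G G' ℓ) {P : Pt N} {P' : Pt N'}
  (hS : Sq G G' ϖ ℓ P P') (h : PD ϖ ℓ q)
include hQ hS h

/-- the degree of `N'` over `F'` is prime to `ℓ` -/
theorem card_F' (hcop : (Module.finrank F G).Coprime ℓ) : (Nat.card Gal(N'/F')).Coprime ℓ := by
  have h1 : Module.finrank F F' * Module.finrank F' G' = Module.finrank F G' :=
    Module.finrank_mul_finrank F F' G'
  have h2 : Module.finrank F G * Module.finrank G G' = Module.finrank F G' :=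
    Module.finrank_mul_finrank F G G'
  rw [hQ.deg] at h1
  rw [hQ.deg', mul_comm, ← h1] at h2
  have h3 : Module.finrank F' G' = Module.finrank F G :=
    (Nat.eq_of_mul_eq_mul_left h.hl.pos h2).symm
  have h4 : Module.finrank F' G' * Module.finrank G' N' = Module.finrank F' N' :=
    Module.finrank_mul_finrank F' G' N'
  have h5 := Full.card h hS.full'
  have h6 : Module.finrank G' N' = q - 1 := by omega
  rw [IsGalois.card_aut_eq_finrank, ← h4, h3, h6]
  exact Nat.Coprime.mul_left hcop h.coprime_q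

/-- a decomposition element of the lower extension lifts to a decomposition element -/
theorem fix_upK (hcop : (Module.finrank F G).Coprime ℓ) (W : HeightOneSpectrum (𝓞 N'))
    {σ : Gal(N/F)} (hσ : gpl σ (W.under (𝓞 N)) = W.under (𝓞 N)) {σ' : Gal(N'/F')}
    (hl : ∀ y : N, σ' (algebraMap N N' y) = algebraMap N N' (σ y)) : gpl σ' W = W := by
  have hsm : ∀ x : 𝓞 N, σ'⁻¹ • (algebraMap (𝓞 N) (𝓞 N') x) = algebraMap (𝓞 N) (𝓞 N') (σ⁻¹ • x) := by
    intro x
    apply RingOfIntegers.ext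
    change σ'⁻¹ (algebraMap N N' (x : N)) = algebraMap N N' (σ⁻¹ (x : N))
    apply σ'.injective
    have e1 : σ' (σ'⁻¹ (algebraMap N N' (x : N))) = algebraMap N N' (x : N) :=
      σ'.apply_symm_apply _
    have e2 : σ (σ⁻¹ (x : N)) = x := σ.apply_symm_apply x
    rw [e1, hl, e2]
  have hu : W.under (𝓞 N) = (gpl σ' W).under (𝓞 N) := by
    apply HeightOneSpectrum.ext
    ext x
    have h1 : x ∈ (W.under (𝓞 N)).asIdeal ↔ σ⁻¹ • x ∈ (W.under (𝓞 N)).asIdeal := by
      have h2 : x ∈ (gpl σ (W.under (𝓞 N))).asIdeal ↔ σ⁻¹ • x ∈ (W.under (𝓞 N)).asIdeal := Iff.rfl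
      rw [← h2, hσ]
    rw [h1]
    change algebraMap (𝓞 N) (𝓞 N') (σ⁻¹ • x) ∈ W.asIdeal ↔
      σ'⁻¹ • (algebraMap (𝓞 N) (𝓞 N') x) ∈ W.asIdeal
    rw [hsm]
  obtain ⟨τ, hτ⟩ := gpl_trans (k := N) W (gpl σ' W) hu
  obtain ⟨γ, hγ, hγl, -⟩ := exists_gamma h hS
  obtain ⟨i, hi⟩ := hγ τ
  have hτl : τ ^ ℓ = 1 := by
    rw [hi, ← pow_mul, mul_comm, pow_mul, hγl, one_pow]
  have hcj : ∀ (j : ℕ) (V : HeightOneSpectrum (𝓞 N')),
      gpl σ' (gpl (τ ^ j) V) = gpl (τ ^ j) (gpl σ' V) := fun j V =>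
    dt_gplc σ' (τ ^ j) (comm_F' hQ hS h (τ ^ j) σ') V
  have hj : ∀ j : ℕ, gpl (σ' ^ j) W = gpl (τ ^ j) W := by
    intro j
    induction j with
    | zero => rw [pow_zero, pow_zero, gpl_one, gpl_one]
    | succ j ih =>
      rw [pow_succ', gpl_mul, ih, hcj, ← hτ, ← gpl_mul, ← pow_succ]
  obtain ⟨n, hn⟩ : ∃ n, n = Nat.card Gal(N'/F') := ⟨_, rfl⟩
  have hs1 : σ' ^ n = 1 := by
    rw [hn]
    exact pow_card_eq_one'
  have hW : gpl (τ ^ n) W = W := by
    rw [← hj, hs1, gpl_one]
  have hWk : ∀ k : ℕ, gpl (τ ^ (n * k)) W = W := by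
    intro k
    induction k with
    | zero => rw [mul_zero, pow_zero, gpl_one]
    | succ k ih => rw [mul_add, mul_one, pow_add, gpl_mul, hW, ih]
  have hl1 : 1 < ℓ := h.hl.one_lt
  have hcn : n.Coprime ℓ := by
    rw [hn]
    exact card_F' hQ hS h hcop
  obtain ⟨m, -, hm⟩ := Nat.exists_mul_mod_eq_one_of_coprime hcn hl1
  have hm2 : τ ^ (n * m) = τ := by
    rw [← Nat.div_add_mod (n * m) ℓ, hm, pow_add, pow_mul, hτl, one_pow, one_mul, pow_one]
  rw [← hτ]
  have := hWk m
  rwa [hm2] at this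

end

section
variable {F F' G G' : Type u}
  [Field F] [NumberField F] [Algebra K F]
  [Field F'] [NumberField F'] [Algebra K F'] [Algebra F F'] [IsScalarTower K F F'] [IsGalois F F']
  [Field G] [NumberField G] [Algebra K G] [Algebra F G] [IsScalarTower K F G] [IsGalois F G]
  [Field G'] [NumberField G'] [Algebra K G'] [Algebra F' G'] [IsScalarTower K F' G']
  [IsGalois F' G'] [Algebra G G'] [IsScalarTower K G G'] [IsGalois G G'] [Algebra F G']
  [IsScalarTower F F' G'] [IsScalarTower F G G'] [IsScalarTower K F G'] [IsGalois F G']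
  {ϖ : 𝓞 K} {ℓ q : ℕ} (hQ : SqF F F' G G' ℓ)
  {k : Gal(G/F) → 𝓞 K} {k' : Gal(G'/F') → 𝓞 K}
  (hkk : ∀ s : Gal(G'/F'), k' s = k (rs G (toF F s))) (h : PD ϖ ℓ q)
include hQ hkk h

/-- the step for the decomposition groups -/
theorem step_DTK (hcop : (Module.finrank F G).Coprime ℓ) {b : 𝓞 K} (hD : DTK F G k b ϖ) :
    DTK F' G' k' b ϖ := by
  intro N' _ _ _ _ _ _ _ _ _ _ P' hP' v hv
  have hϖ := h.prime.ne_zero
  let _ : Algebra F N' := ((algebraMap F' N').comp (algebraMap F F')).toAlgebra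
  have : IsScalarTower F F' N' := IsScalarTower.of_algebraMap_eq fun x => rfl
  have : IsScalarTower K F N' := IsScalarTower.of_algebraMap_eq fun x => by
    rw [IsScalarTower.algebraMap_apply K F' N', IsScalarTower.algebraMap_apply K F F',
      IsScalarTower.algebraMap_apply F F' N']
  let _ : Algebra G N' := ((algebraMap G' N').comp (algebraMap G G')).toAlgebra
  have : IsScalarTower G G' N' := IsScalarTower.of_algebraMap_eq fun x => rfl
  have : IsScalarTower K G N' := IsScalarTower.of_algebraMap_eq fun x => by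
    rw [IsScalarTower.algebraMap_apply K G' N', IsScalarTower.algebraMap_apply K G G',
      IsScalarTower.algebraMap_apply G G' N']
  have : IsScalarTower F G' N' := IsScalarTower.of_algebraMap_eq fun x => by
    rw [IsScalarTower.algebraMap_apply F F' N', IsScalarTower.algebraMap_apply F' G' N',
      IsScalarTower.algebraMap_apply F F' G']
  have : IsScalarTower F G N' := IsScalarTower.of_algebraMap_eq fun x => by
    rw [IsScalarTower.algebraMap_apply F G' N', IsScalarTower.algebraMap_apply G G' N',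
      IsScalarTower.algebraMap_apply F G G']
  have : IsGalois G' N' := IsGalois.tower_top_of_isGalois F' G' N'
  obtain ⟨hG, N, _, _, _, _, _, _, _, _, _, hG1, hG2, P, hS⟩ := exists_sq h hP' hQ.deg'
  have : IsGalois F N' := sq_galois (F := F) (F' := G') hϖ hP'
  let _ : Algebra F N := ((algebraMap G N).comp (algebraMap F G)).toAlgebra
  have : IsScalarTower F G N := IsScalarTower.of_algebraMap_eq fun x => rfl
  have : IsScalarTower K F N := IsScalarTower.of_algebraMap_eq fun x => by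
    rw [IsScalarTower.algebraMap_apply K G N, IsScalarTower.algebraMap_apply K F G,
      IsScalarTower.algebraMap_apply F G N]
  have : IsScalarTower F N N' := IsScalarTower.of_algebraMap_eq fun x => by
    rw [IsScalarTower.algebraMap_apply F G N', IsScalarTower.algebraMap_apply G N N',
      IsScalarTower.algebraMap_apply F G N]
  have : IsGalois F N := sq_galois (F := F) (F' := G) hϖ hS.full
  have h3 : (v.under (𝓞 N)).valuation N (algebraMap K N (b : K)) < 1 := by
    rw [← val_map_lt, ← IsScalarTower.algebraMap_apply K N N']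
    exact hv
  obtain ⟨s, hs, hsv⟩ := hD N P hS.full (v.under (𝓞 N)) h3
  obtain ⟨s', hs'⟩ := liftK hQ hS h s
  refine ⟨s', fun he => hs ?_, fix_upK hQ hS h hcop v hsv hs'⟩
  have e1 : rs N (toF F s') = s := by
    apply AlgEquiv.ext
    intro x
    apply (algebraMap N N').injective
    rw [rs_apply, toF_apply, hs']
  have e2 := gk_up (F := F) (N := N) (N' := N') hkk s' P
  have e3 : up N' P = P' := hS.map
  rw [e1, e3, he, ← e3] at e2
  exact ((DX.up_inj N').1 e2).symm

end

end Pool.Agent.Lib.MP_1a91b9_nuY.TS
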