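import Pool.Agent.Lib.MP_1a91b9_nuY.TS.Step
import Pool.Agent.Lib.MP_1a91b9_nuY.TS.Dt

/-!
# The characters in an extension; the step of the package
-/

set_option autoImplicit false
set_option linter.unusedSectionVars false

namespace Pool.Agent.Lib.MP_1a91b9_nuY.TS

open NumberField IsDedekindDomain WeierstrassCurve Pool.Agent.Lib.MP_1a91b9_nuT
open Pool.Agent.Lib.MP_1a91b9_nuX Pool.Agent.Lib.MP_1a91b9_nuX.DB Pool.Agent.Lib.MP_1a91b9_nuX.DX
open Pool.Agent.Lib.MP_1a91b9_nuX.DS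
open Pool.Agent.Lib.MP_1a91b9_nuW.W Pool.Agent.Lib.MP_1a91b9_nuW.DS

variable [CD]

universe u

section
variable {F F' G G' : Type u}
  [Field F] [NumberField F] [Algebra K F]
  [Field F'] [NumberField F'] [Algebra K F'] [Algebra F F'] [IsScalarTower K F F']
  [Field G] [NumberField G] [Algebra K G] [Algebra F G] [IsScalarTower K F G] [IsGalois F G]
  [Field G'] [NumberField G'] [Algebra K G'] [Algebra F' G'] [IsScalarTower K F' G']
  [IsGalois F' G'] [Algebra G G'] [IsScalarTower K G G'] [Algebra F G']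
  [IsScalarTower F F' G'] [IsScalarTower F G G'] [IsScalarTower K F G']
  {k : Gal(G/F) → 𝓞 K} {k' : Gal(G'/F') → 𝓞 K}
  (hkk : ∀ s : Gal(G'/F'), k' s = k (rs G (toF F s)))
include hkk

theorem Kap.up (hk : Kap F G k) : Kap F' G' k' := by
  refine ⟨?_, fun s t => ?_, fun s => ?_⟩
  · have e : rs G (toF F (1 : Gal(G'/F'))) = 1 := rs_toF (1 : Gal(G'/G))
    rw [hkk, e, hk.one]
  · have e : rs G (toF F (s * t)) = rs G (toF F s) * rs G (toF F t) :=
      rs_mul (F := F) (N := G) (toF F s) (toF F t)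
    rw [hkk, hkk, hkk, e, hk.mul]
  · rw [hkk]
    exact hk.nrm _

variable [HC]

/-- the Hecke character of the twist in an extension -/
theorem FrK.up {b : 𝓞 K} (hk : Kap F G k) {Ψ : Ideal (𝓞 F) → 𝓞 K} {Ψ' : Ideal (𝓞 F') → 𝓞 K}
    (hΨ : ∀ v : HeightOneSpectrum (𝓞 F'),
      Ψ' v.asIdeal = Ψ (v.under (𝓞 F)).asIdeal ^ v.asIdeal.inertiaDeg (𝓞 F))
    (hfr : FrK F G k b Ψ) : FrK F' G' k' b Ψ' := by
  intro w' hb' s' hs'
  set v' := w'.under (𝓞 F') with hv'
  set v := v'.under (𝓞 F) with hv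
  set w := w'.under (𝓞 G) with hw
  set f := v'.asIdeal.inertiaDeg (𝓞 F) with hf
  have hwv : w.under (𝓞 F) = v := by rw [hw, hv, hv', under_under, under_under]
  have hbG : w.valuation G (algebraMap K G (b : K)) = 1 := by
    rw [hw, ← val_map_eq, ← IsScalarTower.algebraMap_apply K G G']
    exact hb'
  have i1 : v.asIdeal.IsMaximal := v.isMaximal
  have i2 : v'.asIdeal.IsPrime := v'.isPrime
  have i3 : v'.asIdeal.LiesOver v.asIdeal := ⟨rfl⟩
  have hN : Ideal.absNorm v'.asIdeal = Ideal.absNorm v.asIdeal ^ f :=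
    (Ideal.absNorm_pow_inertiaDeg v.asIdeal v'.asIdeal).symm
  have hf0 : f ≠ 0 := by
    intro h0
    rw [h0, pow_zero, Ideal.absNorm_eq_one_iff] at hN
    exact v'.isPrime.ne_top hN
  have hpu : psi F' v'.asIdeal = psi F v.asIdeal ^ f := psi_up (F := F) v'
  rw [hΨ, hpu]
  change Ψ v.asIdeal ^ f = k' s' * psi F v.asIdeal ^ f
  obtain ⟨g, hg, hgw⟩ := exists_frobW (k := F) w
  rw [hwv] at hg
  have h1 : Ψ v.asIdeal = k g * psi F v.asIdeal := by
    have h2 := hfr w hbG g (by rw [hwv]; exact hg)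
    rwa [hwv] at h2
  by_cases hz : psi F v.asIdeal = 0
  · rw [h1, hz, mul_zero, zero_pow hf0, mul_zero]
  -- the restriction of `s'` and the power of `g`
  set t := rs G (toF F s') with ht
  have hmem : ∀ (s : Gal(G/F)) (z : 𝓞 G), gpl s w = w → z ∈ w.asIdeal → s • z ∈ w.asIdeal := by
    intro s z hs hz
    rw [← hs]
    change s⁻¹ • s • z ∈ w.asIdeal
    rwa [inv_smul_smul]
  have hinv : ∀ s : Gal(G/F), gpl s w = w → gpl s⁻¹ w = w := by
    intro s hs
    have h2 : gpl (s⁻¹ * s) w = w := by rw [inv_mul_cancel, gpl_one]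
    rwa [gpl_mul, hs] at h2
  have hgj : ∀ j : ℕ, gpl (g ^ j) w = w := by
    intro j
    induction j with
    | zero => rw [pow_zero, gpl_one]
    | succ j ih => rw [pow_succ, gpl_mul, hgw, ih]
  have hpow : ∀ (j : ℕ) (x : 𝓞 G), g ^ j • x - x ^ (Ideal.absNorm v.asIdeal ^ j) ∈ w.asIdeal := by
    intro j
    induction j with
    | zero =>
      intro x
      rw [pow_zero, pow_zero, pow_one, one_smul, sub_self]
      exact Submodule.zero_mem _
    | succ j ih =>
      intro x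
      have h2 := hmem (g ^ j) _ (hgj j) (hg x)
      rw [smul_sub, smul_pow', ← mul_smul, ← pow_succ] at h2
      have h3 : (g ^ j • x) ^ Ideal.absNorm v.asIdeal -
          (x ^ (Ideal.absNorm v.asIdeal ^ j)) ^ Ideal.absNorm v.asIdeal ∈ w.asIdeal :=
        w.asIdeal.mem_of_dvd (sub_dvd_pow_sub_pow _ _ _) (ih x)
      have h4 := w.asIdeal.add_mem h2 h3
      rw [sub_add_sub_cancel, ← pow_mul, ← pow_succ] at h4
      exact h4
  have htx : ∀ x : 𝓞 G, t • x - x ^ (Ideal.absNorm v.asIdeal ^ f) ∈ w.asIdeal := by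
    intro x
    change algebraMap (𝓞 G) (𝓞 G') (t • x - x ^ _) ∈ w'.asIdeal
    have e : algebraMap (𝓞 G) (𝓞 G') (t • x) = s' • algebraMap (𝓞 G) (𝓞 G') x := by
      apply RingOfIntegers.ext
      change algebraMap G G' (t (x : G)) = s' (algebraMap G G' (x : G))
      rw [ht, rs_apply, toF_apply]
    rw [map_sub, map_pow, e, ← hN]
    exact hs' _
  have hτ : ∀ x : 𝓞 G, ((g ^ f)⁻¹ * t) • x - x ∈ w.asIdeal := by
    intro x
    have h2 := w.asIdeal.sub_mem (htx x) (hpow f x)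
    rw [sub_sub_sub_cancel_right] at h2
    have h3 := hmem ((g ^ f)⁻¹) _ (hinv _ (hgj f)) h2
    rw [smul_sub, inv_smul_smul, ← mul_smul] at h3
    exact h3
  have hgτ : ∀ x : 𝓞 G, (g * ((g ^ f)⁻¹ * t)) • x - x ^ Ideal.absNorm v.asIdeal ∈ w.asIdeal := by
    intro x
    have h2 := hmem g _ hgw (hτ x)
    rw [smul_sub, ← mul_smul] at h2
    have h3 := w.asIdeal.add_mem h2 (hg x)
    rwa [sub_add_sub_cancel] at h3
  have h2 : Ψ v.asIdeal = k (g * ((g ^ f)⁻¹ * t)) * psi F v.asIdeal := by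
    have h3 := hfr w hbG (g * ((g ^ f)⁻¹ * t)) (by rw [hwv]; exact hgτ)
    rwa [hwv] at h3
  have h3 : k (g * ((g ^ f)⁻¹ * t)) = k g := mul_right_cancel₀ hz (h2.symm.trans h1)
  have h4 : k ((g ^ f)⁻¹ * t) = 1 := by
    rw [hk.mul] at h3
    have h5 := hk.isUnit g
    exact h5.mul_left_cancel (h3.trans (mul_one _).symm)
  have h5 : k (g ^ f) = k g ^ f := by
    have h6 : ∀ j : ℕ, k (g ^ j) = k g ^ j := by
      intro j
      induction j with
      | zero => rw [pow_zero, pow_zero, hk.one]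
      | succ j ih => rw [pow_succ, pow_succ, hk.mul, ih]
    exact h6 f
  have h6 : k' s' = k g ^ f := by
    rw [hkk, ← ht, ← h5]
    have h7 : t = g ^ f * ((g ^ f)⁻¹ * t) := (mul_inv_cancel_left _ _).symm
    rw [h7, hk.mul, h4, mul_one]
  rw [h6, h1, mul_pow]

end

section
variable {F F' G G' : Type u}
  [Field F] [NumberField F] [Algebra K F]
  [Field F'] [NumberField F'] [Algebra K F'] [Algebra F F'] [IsScalarTower K F F'] [IsGalois F F']
  [Field G] [NumberField G] [Algebra K G] [Algebra F G] [IsScalarTower K F G] [IsGalois F G]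
  [Field G'] [NumberField G'] [Algebra K G'] [Algebra F' G'] [IsScalarTower K F' G']
  [IsGalois F' G'] [Algebra G G'] [IsScalarTower K G G'] [IsGalois G G'] [Algebra F G']
  [IsScalarTower F F' G'] [IsScalarTower F G G'] [IsScalarTower K F G'] [IsGalois F G']
  {ϖ : 𝓞 K} {ℓ q : ℕ} (hQ : SqF F F' G G' ℓ)
  {k : Gal(G/F) → 𝓞 K} {k' : Gal(G'/F') → 𝓞 K}
  (hkk : ∀ s : Gal(G'/F'), k' s = k (rs G (toF F s))) (h : PD ϖ ℓ q) {b : 𝓞 K}
  {Ψ : Ideal (𝓞 F) → 𝓞 K} {Ψ' : Ideal (𝓞 F') → 𝓞 K}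
include hQ hkk h

variable [HC]

/-- **The step of the package** -/
theorem AWK.step (A : AWK F G k b ϖ ℓ Ψ)
    (hΨ : ∀ v : HeightOneSpectrum (𝓞 F'),
      Ψ' v.asIdeal = Ψ (v.under (𝓞 F)).asIdeal ^ v.asIdeal.inertiaDeg (𝓞 F))
    (hu : ¬ IsCoprime ϖ (cj ϖ) → ∀ v : HeightOneSpectrum (𝓞 F'), v.valuation F' (ℓ : F') < 1 →
      v.asIdeal.ramificationIdx (𝓞 F) = 1)
    (ha : ∀ v : HeightOneSpectrum (𝓞 F'), v.asIdeal.ramificationIdx (𝓞 F) ≠ 1 →
      IsCoprime (Ψ (v.under (𝓞 F)).asIdeal - 1) (ℓ : 𝓞 K)) : AWK F' G' k' b ϖ ℓ Ψ' := by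
  have hk' : Kap F' G' k' := Kap.up hkk A.kap
  have hnb : IsCoprime b (ℓ : 𝓞 K) := A.bl
  -- the places of `G'` above `ℓ` are prime to `b`
  have hbl : ∀ w : HeightOneSpectrum (𝓞 G'), w.valuation G' (ℓ : G') < 1 →
      w.valuation G' (algebraMap K G' (b : K)) = 1 := by
    intro w hw
    refine le_antisymm (v_alg_le (w.valuation G') b) ?_
    by_contra hlt
    rw [not_le] at hlt
    obtain ⟨x, y, hxy⟩ := hnb
    have e : algebraMap K G' ((x * b + y * (ℓ : 𝓞 K) : 𝓞 K) : K) =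
        algebraMap K G' (x : K) * algebraMap K G' (b : K) + algebraMap K G' (y : K) * (ℓ : G') := by
      have e1 : ((x * b + y * (ℓ : 𝓞 K) : 𝓞 K) : K) = (x : K) * (b : K) + (y : K) * (ℓ : K) := by
        push_cast
        rfl
      rw [e1, map_add, map_mul, map_mul, map_natCast]
    rw [hxy] at e
    have e2 : algebraMap K G' ((1 : 𝓞 K) : K) = 1 := by
      have e3 : ((1 : 𝓞 K) : K) = 1 := rfl
      rw [e3, map_one]
    rw [e2] at e
    have h1 : w.valuation G' (1 : G') < 1 := by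
      rw [e]
      refine Valuation.map_add_lt _ ?_ ?_
      · rw [map_mul]
        exact (mul_le_of_le_one_left' (v_alg_le (w.valuation G') x)).trans_lt hlt
      · rw [map_mul]
        exact (mul_le_of_le_one_left' (v_alg_le (w.valuation G') y)).trans_lt hw
    rw [map_one] at h1
    exact lt_irrefl _ h1
  have hur' : ∀ w : HeightOneSpectrum (𝓞 G'), w.valuation G' (algebraMap K G' (b : K)) = 1 →
      w.asIdeal.ramificationIdx (𝓞 F') * (w.under (𝓞 F')).asIdeal.ramificationIdx (𝓞 F) =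
      w.asIdeal.ramificationIdx (𝓞 G) ∧ w.asIdeal.ramificationIdx (𝓞 F') = 1 := by
    intro w hw
    refine ram_GF hQ h A.deg w (A.ur _ ?_)
    rw [← val_map_eq, ← IsScalarTower.algebraMap_apply K G G']
    exact hw
  refine ⟨hk', ?_, hnb, A.bad, fun w hw => (hur' w hw).2, FrK.up hkk A.kap hΨ A.fr,
    ep_step (F := G) (F' := G') h.hl hQ.deg' A.ep, fun v hv hne => ?_, fun hc => ?_,
    vtk_step hQ hk' hkk h A hu ha, step_DTK hQ hkk h A.deg A.dt⟩
  · rw [finrank_GF hQ h]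
    exact A.deg
  · rw [hΨ]
    have hdv : v.asIdeal.inertiaDeg (𝓞 F) ∣ ℓ := by
      have h1 := (ram_dvd F F' v).2
      rwa [hQ.deg] at h1
    refine PT.cop_pow h.hl ?_ hdv
    by_cases he : v.asIdeal.ramificationIdx (𝓞 F) = 1
    · refine A.na _ ?_ ?_
      · rw [← val_map_lt, map_natCast]
        exact hv
      · intro h1
        apply hne
        rw [od_ell F F' ℓ v, he, h1]
        norm_num
    · exact ha v he
  · refine unr_step (F := G) (F' := G') (fun w hw => ?_) (A.un hc)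
    obtain ⟨h1, h2⟩ := hur' w (hbl w hw)
    rw [← h1, h2, one_mul]
    refine hu hc _ ?_
    rw [← val_map_lt, map_natCast]
    exact hw

end

end Pool.Agent.Lib.MP_1a91b9_nuY.TS
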