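import Pool.Agent.Lib.MP_1a91b9_nuY.TS.Cpm
import Pool.Agent.Lib.MP_1a91b9_nuY.TS.Up
import Pool.Agent.Lib.MP_1a91b9_nuY.TX.Defs

/-!
# The package over the towers of `TX`
-/

set_option autoImplicit false
set_option linter.unusedSectionVars false

namespace Pool.Agent.Lib.MP_1a91b9_nuY.TS

open NumberField IsDedekindDomain WeierstrassCurve Pool.Agent.Lib.MP_1a91b9_nuT
open Pool.Agent.Lib.MP_1a91b9_nuX Pool.Agent.Lib.MP_1a91b9_nuX.DB Pool.Agent.Lib.MP_1a91b9_nuX.DX
open Pool.Agent.Lib.MP_1a91b9_nuX.DS
open Pool.Agent.Lib.MP_1a91b9_nuW.W Pool.Agent.Lib.MP_1a91b9_nuW.DS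

variable [CD]

open Pool.Agent.Lib.MP_1a91b9_nuY.TX
open Pool.Agent.Lib.MP_1a91b9_nuW.DY (Splt cop_of_splt)

universe u

section
variable {F F' G G' : Type u} [Field F] [NumberField F] [Field F'] [NumberField F'] [Field G]
  [NumberField G] [Field G'] [NumberField G'] [Algebra F F'] [Algebra F G] [Algebra F' G']
  [Algebra G G'] [Algebra F G'] [IsScalarTower F F' G'] [IsScalarTower F G G']

/-- the degree of the compositum -/
theorem finrank_sq [IsGalois F F'] [IsGalois G G'] {ℓ : ℕ}
    (hd : Module.finrank F F' = ℓ) (hcop : (Module.finrank F G).Coprime ℓ)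
    (h : IntermediateField.adjoin G (Set.range (algebraMap F' G')) = ⊤) :
    Module.finrank G G' = ℓ := by
  have f1 : FiniteDimensional F F' := FiniteDimensional.right ℚ F F'
  have f2 : FiniteDimensional G G' := FiniteDimensional.right ℚ G G'
  let f : Gal(G'/G) → Gal(F'/F) := fun s => (s.restrictScalars F).restrictNormal F'
  have hf : ∀ (s : Gal(G'/G)) (x : F'), algebraMap F' G' (f s x) = s (algebraMap F' G' x) :=
    fun s x => AlgEquiv.restrictNormal_commutes (s.restrictScalars F) F' x
  have hinj : Function.Injective f := by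
    intro a b hab
    have key : ∀ x : G', x ∈ IntermediateField.adjoin G (Set.range (algebraMap F' G')) →
        a x = b x := by
      intro x hx
      induction hx using IntermediateField.adjoin_induction with
      | mem x hx =>
        obtain ⟨y, rfl⟩ := hx
        rw [← hf, ← hf, hab]
      | algebraMap x => rw [a.commutes, b.commutes]
      | add x y _ _ h1 h2 => rw [map_add, map_add, h1, h2]
      | inv x _ h1 => rw [map_inv₀, map_inv₀, h1]
      | mul x y _ _ h1 h2 => rw [map_mul, map_mul, h1, h2]
    apply AlgEquiv.ext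
    intro x
    exact key x (by rw [h]; exact IntermediateField.mem_top)
  have h1 : Module.finrank G G' ≤ ℓ := by
    rw [← IsGalois.card_aut_eq_finrank G G', ← hd, ← IsGalois.card_aut_eq_finrank F F']
    exact Nat.card_le_card_of_injective f hinj
  have h2 : Module.finrank F F' * Module.finrank F' G' = Module.finrank F G' :=
    Module.finrank_mul_finrank F F' G'
  have h3 : Module.finrank F G * Module.finrank G G' = Module.finrank F G' :=
    Module.finrank_mul_finrank F G G'
  have h4 : ℓ ∣ Module.finrank F G * Module.finrank G G' := by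
    rw [h3, ← h2, hd]
    exact dvd_mul_right _ _
  have h5 : ℓ ∣ Module.finrank G G' := (Nat.Coprime.symm hcop).dvd_of_dvd_mul_left h4
  have h6 : 0 < Module.finrank G G' := Module.finrank_pos
  exact le_antisymm h1 (Nat.le_of_dvd h6 h5)

end

section
variable {F₀ G₀ F F' G' : Type u} [Field F₀] [NumberField F₀] [Algebra K F₀] [Field G₀]
  [NumberField G₀] [Algebra F₀ G₀] [Field F]
  [NumberField F] [Algebra F₀ F] [Algebra K F] [IsScalarTower K F₀ F] [Field F'] [NumberField F']
  [Algebra F₀ F'] [Algebra K F'] [IsScalarTower K F₀ F'] [Algebra F F'] [IsScalarTower F₀ F F']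
  [IsScalarTower K F F'] [Field G'] [NumberField G'] [Algebra K G'] [Algebra F' G']
  [Algebra F₀ G'] [Algebra G₀ G'] [IsScalarTower K F' G'] [IsScalarTower F₀ F' G']
  [IsScalarTower F₀ G₀ G'] [Algebra F G'] [IsScalarTower F F' G']

/-- the compositum of `F` and of `G₀` in the compositum of `F'` and of `G₀` -/
theorem exists_G (hc : Cmp G₀ F' G') :
    ∃ (G : Type u) (_ : Field G) (_ : NumberField G) (_ : Algebra K G) (_ : Algebra F G)
      (_ : Algebra F₀ G) (_ : Algebra G₀ G) (_ : Algebra G G') (_ : IsScalarTower K F G)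
      (_ : IsScalarTower F₀ F G) (_ : IsScalarTower F₀ G₀ G) (_ : IsScalarTower F G G')
      (_ : IsScalarTower G₀ G G') (_ : IsScalarTower K G G'), Cmp G₀ F G ∧
      IntermediateField.adjoin G (Set.range (algebraMap F' G')) = ⊤ ∧
      ∀ σ : Gal(G'/F'), (∀ x : G, σ (algebraMap G G' x) = algebraMap G G' x) → σ = 1 := by
  have hfd : FiniteDimensional F G' := FiniteDimensional.right ℚ F G'
  let L : IntermediateField F G' := IntermediateField.adjoin F (Set.range (algebraMap G₀ G'))
  have hNF : NumberField L := NumberField.of_module_finite F L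
  have hmem : ∀ x : G₀, algebraMap G₀ G' x ∈ L := fun x =>
    IntermediateField.subset_adjoin F _ ⟨x, rfl⟩
  let i0 : G₀ →+* L := (algebraMap G₀ G').codRestrict L.toSubfield.toSubring hmem
  let a0 : Algebra G₀ L := i0.toAlgebra
  let a1 : Algebra K L := ((algebraMap F L).comp (algebraMap K F)).toAlgebra
  let a2 : Algebra F₀ L := ((algebraMap F L).comp (algebraMap F₀ F)).toAlgebra
  have t1 : IsScalarTower K F L := IsScalarTower.of_algebraMap_eq fun _ => rfl
  have t2 : IsScalarTower F₀ F L := IsScalarTower.of_algebraMap_eq fun _ => rfl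
  have t3 : IsScalarTower F₀ G₀ L := IsScalarTower.of_algebraMap_eq fun x => Subtype.ext (by
    change algebraMap F G' (algebraMap F₀ F x) = algebraMap G₀ G' (algebraMap F₀ G₀ x)
    rw [← IsScalarTower.algebraMap_apply F₀ G₀ G', IsScalarTower.algebraMap_apply F F' G',
      ← IsScalarTower.algebraMap_apply F₀ F F', ← IsScalarTower.algebraMap_apply F₀ F' G'])
  have t4 : IsScalarTower F L G' := inferInstance
  have t5 : IsScalarTower G₀ L G' := IsScalarTower.of_algebraMap_eq fun _ => rfl
  have t6 : IsScalarTower K L G' := IsScalarTower.of_algebraMap_eq fun x => by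
    change algebraMap K G' x = algebraMap F G' (algebraMap K F x)
    rw [IsScalarTower.algebraMap_apply F F' G', ← IsScalarTower.algebraMap_apply K F F',
      ← IsScalarTower.algebraMap_apply K F' G']
  refine ⟨L, inferInstance, hNF, a1, inferInstance, a2, a0, inferInstance, t1, t2, t3, t4, t5, t6,
    ?_, ?_, ?_⟩
  · -- `L` is generated by `G₀`
    have h1 : (IntermediateField.adjoin F (Set.range (algebraMap G₀ L))).map L.val =
        (⊤ : IntermediateField F L).map L.val := by
      rw [IntermediateField.adjoin_map, ← AlgHom.fieldRange_eq_map, IntermediateField.fieldRange_val,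
        ← Set.range_comp]
      rfl
    exact IntermediateField.map_injective _ h1
  · have key : ∀ x : G', x ∈ IntermediateField.adjoin F' (Set.range (algebraMap G₀ G')) →
        x ∈ IntermediateField.adjoin L (Set.range (algebraMap F' G')) := by
      intro x hx
      induction hx using IntermediateField.adjoin_induction with
      | mem x hx =>
        obtain ⟨y, rfl⟩ := hx
        rw [IsScalarTower.algebraMap_apply G₀ L G']
        exact IntermediateField.algebraMap_mem _ _
      | algebraMap x => exact IntermediateField.subset_adjoin L _ ⟨x, rfl⟩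
      | add x y _ _ h1 h2 => exact add_mem h1 h2
      | inv x _ h1 => exact inv_mem h1
      | mul x y _ _ h1 h2 => exact mul_mem h1 h2
    rw [eq_top_iff]
    intro x _
    refine key x ?_
    have h1 : IntermediateField.adjoin F' (Set.range (algebraMap G₀ G')) = ⊤ := hc
    rw [h1]
    exact IntermediateField.mem_top
  · intro σ hσ
    have key : ∀ x : G', x ∈ IntermediateField.adjoin F' (Set.range (algebraMap G₀ G')) →
        σ x = x := by
      intro x hx
      induction hx using IntermediateField.adjoin_induction with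
      | mem x hx =>
        obtain ⟨y, rfl⟩ := hx
        rw [IsScalarTower.algebraMap_apply G₀ L G']
        exact hσ _
      | algebraMap x => exact σ.commutes x
      | add x y _ _ h1 h2 => rw [map_add, h1, h2]
      | inv x _ h1 => rw [map_inv₀, h1]
      | mul x y _ _ h1 h2 => rw [map_mul, h1, h2]
    apply AlgEquiv.ext
    intro x
    refine key x ?_
    have h1 : IntermediateField.adjoin F' (Set.range (algebraMap G₀ G')) = ⊤ := hc
    rw [h1]
    exact IntermediateField.mem_top

end

section
variable {F₀ G₀ : Type u} [Field F₀] [NumberField F₀] [Algebra K F₀] [Field G₀] [NumberField G₀]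
  [Algebra K G₀] [Algebra F₀ G₀] [IsScalarTower K F₀ G₀] [IsGalois F₀ G₀]

variable [HC]

/-- **The package over the tower** -/
theorem awk_towF {k : Gal(G₀/F₀) → 𝓞 K} {g ϖ : 𝓞 K} {ℓ q : ℕ} (h : PD ϖ ℓ q)
    {Ψ : Ideal (𝓞 F₀) → 𝓞 K} (hf : HF g F₀ Ψ)
    (hcopy : ∀ (F : Type u) [Field F] [NumberField F] [Algebra K F] [Algebra F₀ F]
      [IsScalarTower K F₀ F] (G : Type u) [Field G] [NumberField G] [Algebra K G] [Algebra F G]
      [Algebra F₀ G] [Algebra G₀ G] [IsScalarTower K F G] [IsScalarTower F₀ F G]
      [IsScalarTower F₀ G₀ G] [IsGalois F G], Function.Bijective (algebraMap F₀ F) → Cmp G₀ F G →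
      AWK F G (kr k F G) g ϖ ℓ (ov F₀ Ψ))
    (F : Type u) [Field F] [NumberField F] [Algebra F₀ F] (hF : TowF F₀ Ψ ℓ F) :
    ∀ [Algebra K F] [IsScalarTower K F₀ F] (G : Type u) [Field G] [NumberField G] [Algebra K G]
      [Algebra F G] [Algebra F₀ G] [Algebra G₀ G] [IsScalarTower K F G] [IsScalarTower F₀ F G]
      [IsScalarTower F₀ G₀ G] [IsGalois F G], Cmp G₀ F G → AWK F G (kr k F G) g ϖ ℓ (ov F₀ Ψ) := by
  induction hF with
  | base F hb =>
    intro _ _ G _ _ _ _ _ _ _ _ _ _ hc
    exact hcopy F G hb hc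
  | step F F' hG hr hu ha hF ih =>
    intro _ _ G' _ _ _ _ _ _ _ _ _ _ hc
    let aF : Algebra K F := ((algebraMap F₀ F).comp (algebraMap K F₀)).toAlgebra
    have t1 : IsScalarTower K F₀ F := IsScalarTower.of_algebraMap_eq fun _ => rfl
    have t2 : IsScalarTower K F F' := IsScalarTower.of_algebraMap_eq fun x => by
      rw [IsScalarTower.algebraMap_apply K F₀ F', IsScalarTower.algebraMap_apply F₀ F F',
        IsScalarTower.algebraMap_apply K F₀ F]
    let aG : Algebra F G' := ((algebraMap F' G').comp (algebraMap F F')).toAlgebra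
    have t3 : IsScalarTower F F' G' := IsScalarTower.of_algebraMap_eq fun _ => rfl
    obtain ⟨G, i1, i2, i3, i4, i5, i6, i7, s1, s2, s3, s4, s5, s6, hcG, hgen, hσ⟩ :=
      exists_G (F₀ := F₀) (F := F) hc
    have f0 : FiniteDimensional F₀ G₀ := FiniteDimensional.right ℚ F₀ G₀
    have f1 : FiniteDimensional F F' := FiniteDimensional.right ℚ F F'
    have g1 : IsGalois F G := gal_comp F₀ G₀ F G hcG
    have g2 : IsGalois G G' := gal_comp F F' G G' hgen
    have hfd : FiniteDimensional F G' := FiniteDimensional.right ℚ F G'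
    have g3 : IsGalois F G' := gal_sup F F' G G' hgen
    have s7 : IsScalarTower K F G' := IsScalarTower.of_algebraMap_eq fun x => by
      rw [IsScalarTower.algebraMap_apply K F' G', IsScalarTower.algebraMap_apply F F' G',
        IsScalarTower.algebraMap_apply K F F']
    have s8 : IsScalarTower F₀ G G' := IsScalarTower.of_algebraMap_eq fun x => by
      rw [IsScalarTower.algebraMap_apply F₀ F' G', IsScalarTower.algebraMap_apply F₀ F G,
        IsScalarTower.algebraMap_apply F₀ F F', ← IsScalarTower.algebraMap_apply F F' G',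
        ← IsScalarTower.algebraMap_apply F G G']
    have s9 : IsScalarTower K F₀ G := IsScalarTower.of_algebraMap_eq fun x => by
      rw [IsScalarTower.algebraMap_apply K F G, IsScalarTower.algebraMap_apply F₀ F G,
        IsScalarTower.algebraMap_apply K F₀ F]
    have s10 : IsScalarTower K F₀ G' := IsScalarTower.of_algebraMap_eq fun x => by
      rw [IsScalarTower.algebraMap_apply K F' G', IsScalarTower.algebraMap_apply F₀ F' G',
        IsScalarTower.algebraMap_apply K F₀ F']
    have s11 : IsScalarTower K G₀ G := IsScalarTower.of_algebraMap_eq fun x => by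
      rw [IsScalarTower.algebraMap_apply K F₀ G, IsScalarTower.algebraMap_apply F₀ G₀ G,
        IsScalarTower.algebraMap_apply K F₀ G₀]
    have s12 : IsScalarTower K G₀ G' := IsScalarTower.of_algebraMap_eq fun x => by
      rw [IsScalarTower.algebraMap_apply K F₀ G', IsScalarTower.algebraMap_apply F₀ G₀ G',
        IsScalarTower.algebraMap_apply K F₀ G₀]
    have A := ih G hcG
    have hd' : Module.finrank G G' = ℓ := finrank_sq hr A.deg hgen
    refine AWK.step (F := F) (F' := F') (G := G) (G' := G') ⟨hr, hd', hσ⟩ (fun s => ?_) h A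
      (fun v => ?_) (fun hn v hv => ?_) (fun v hv => ?_)
    · -- the characters
      change k (rs G₀ (toF F₀ s)) = k (rs G₀ (toF F₀ (rs G (toF F s))))
      congr 1
      apply AlgEquiv.ext
      intro x
      apply (algebraMap G₀ G').injective
      rw [rs_apply, toF_apply, IsScalarTower.algebraMap_apply G₀ G G' (rs G₀ _ x), rs_apply,
        toF_apply, rs_apply, toF_apply, ← IsScalarTower.algebraMap_apply G₀ G G']
    · -- the Hecke characters
      have i1 : (v.under (𝓞 F)).asIdeal.IsMaximal := (v.under (𝓞 F)).isMaximal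
      have i2 : v.asIdeal.IsMaximal := v.isMaximal
      have i3 : v.asIdeal.LiesOver (v.under (𝓞 F)).asIdeal := ⟨rfl⟩
      have h1 : Ideal.relNorm (𝓞 F) v.asIdeal =
          (v.under (𝓞 F)).asIdeal ^ v.asIdeal.inertiaDeg (𝓞 F) :=
        Ideal.relNorm_eq_pow_of_isMaximal v.asIdeal (v.under (𝓞 F)).asIdeal
      have hst : IsScalarTower (𝓞 F₀) (𝓞 F) (𝓞 F') := inferInstance
      have h2 : Ideal.relNorm (𝓞 F₀) v.asIdeal =
          Ideal.relNorm (𝓞 F₀) (Ideal.relNorm (𝓞 F) v.asIdeal) :=
        (Ideal.relNorm_relNorm (𝓞 F₀) (𝓞 F) v.asIdeal).symm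
      change Ψ (Ideal.relNorm (𝓞 F₀) v.asIdeal) = Ψ (Ideal.relNorm (𝓞 F₀) _) ^ _
      rw [h2, h1, map_pow, hf.pow]
    · by_contra hne
      refine hn (cop_of_splt h (hu (v.under (𝓞 F)) ?_
        ⟨v, (MP_1a91b9_nuG.le_sq_iff rfl).mpr hne⟩))
      have h1 : (v.under (𝓞 F)).valuation F (ℓ : F) < 1 := by
        rw [← val_map_lt, map_natCast]
        exact hv
      have e : algebraMap (𝓞 F) F (ℓ : 𝓞 F) = (ℓ : F) := map_natCast (algebraMap (𝓞 F) F) ℓ
      exact ((v.under (𝓞 F)).valuation_lt_one_iff_mem (K := F) (ℓ : 𝓞 F)).1 (by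
        change (v.under (𝓞 F)).valuation F (algebraMap (𝓞 F) F (ℓ : 𝓞 F)) < 1
        rw [e]
        exact h1)
    · exact ha (v.under (𝓞 F)) ⟨v, (MP_1a91b9_nuG.le_sq_iff rfl).mpr hv⟩

end

end Pool.Agent.Lib.MP_1a91b9_nuY.TS
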