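import Pool.Agent.Lib.MP_1a91b9_nuX.DX.Defs
import Pool.Agent.Lib.MP_1a91b9_nuW.DS.Tower

/-!
# The twisted base: the twisted action, the Selmer group of the twist in Kummer form, the package

`G/F` is a Galois extension and `k : Gal(G/F) → 𝓞 K` a character with values in the units. A curve
over `F` which becomes isomorphic to `E` over `G`, with character `k`, has the same points over the
extensions `L` of `G`, with the Galois action `gk G k g P = k(g) (g P)`.
-/

set_option autoImplicit false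
set_option linter.unusedSectionVars false

namespace Pool.Agent.Lib.MP_1a91b9_nuY.TS

open NumberField IsDedekindDomain WeierstrassCurve Pool.Agent.Lib.MP_1a91b9_nuT
open Pool.Agent.Lib.MP_1a91b9_nuX Pool.Agent.Lib.MP_1a91b9_nuX.DB Pool.Agent.Lib.MP_1a91b9_nuX.DX
open Pool.Agent.Lib.MP_1a91b9_nuX.DS
open Pool.Agent.Lib.MP_1a91b9_nuW.W Pool.Agent.Lib.MP_1a91b9_nuW.DS

variable [CD]

universe u

/-- a character of `Gal(G/F)` with values in the units of `𝓞 K` -/
structure Kap (F G : Type u) [Field F] [Field G] [Algebra F G] (k : Gal(G/F) → 𝓞 K) : Prop where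
  one : k 1 = 1
  mul : ∀ s t : Gal(G/F), k (s * t) = k s * k t
  nrm : ∀ s : Gal(G/F), k s * cj (k s) = 1

section
variable {F : Type u} (G : Type u) {N : Type u} [Field F] [NumberField F] [Algebra K F]
  [Field G] [NumberField G] [Algebra K G] [Algebra F G] [IsScalarTower K F G] [IsGalois F G]
  [Field N] [NumberField N] [Algebra K N] [Algebra F N] [Algebra G N] [IsScalarTower K F N]
  [IsScalarTower K G N] [IsScalarTower F G N] [DecidableEq N]

/-- the twisted action on the points -/
noncomputable def gk (k : Gal(G/F) → 𝓞 K) (g : Gal(N/F)) (P : Pt N) : Pt N :=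
  sm N (k (rs G g)) (ga g P)

/-- `y` is isotypic modulo `ℓ`-th powers for the twisted action -/
def IsoK (k : Gal(G/F) → 𝓞 K) (ℓ : ℕ) (P : Pt N) (y : Nˣ) : Prop :=
  ∃ A : 𝓞 K →+ El ℓ N, ∀ (g : Gal(N/F)) (c : 𝓞 K), gk G k g P = sm N c P → el ℓ (sg g y) = A c

/-- the Selmer group of the twist in Kummer form -/
structure VWK (k : Gal(G/F) → 𝓞 K) (ϖ : 𝓞 K) (ℓ : ℕ) (P : Pt N) (y : Nˣ) : Prop where
  vw : VW G ϖ ℓ P y
  iso : IsoK G k ℓ P y

end

section
variable (F G : Type u) [Field F] [NumberField F] [Algebra K F]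
  [Field G] [NumberField G] [Algebra K G] [Algebra F G] [IsScalarTower K F G] [IsGalois F G]
  (k : Gal(G/F) → 𝓞 K)

/-- the group `VWK` is trivial -/
def VTK (ϖ : 𝓞 K) (ℓ : ℕ) : Prop :=
  ∀ (N : Type u) [Field N] [NumberField N] [Algebra K N] [Algebra F N] [Algebra G N]
    [IsScalarTower K F N] [IsScalarTower K G N] [IsScalarTower F G N] [DecidableEq N]
    [IsGalois F N] (P : Pt N), Full G ϖ P → ∀ y : Nˣ, VWK G k ϖ ℓ P y → ∃ z : Nˣ, y = z ^ ℓ

/-- at the places above `b` there are automorphisms of the decomposition group which move `P` for the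
twisted action -/
def DTK (b ϖ : 𝓞 K) : Prop :=
  ∀ (N : Type u) [Field N] [NumberField N] [Algebra K N] [Algebra F N] [Algebra G N]
    [IsScalarTower K F N] [IsScalarTower K G N] [IsScalarTower F G N] [DecidableEq N]
    [IsGalois F N] (P : Pt N), Full G ϖ P → ∀ v : HeightOneSpectrum (𝓞 N),
    v.valuation N (algebraMap K N (b : K)) < 1 → ∃ s : Gal(N/F), gk G k s P ≠ P ∧ gpl s v = v

variable [HC]

/-- `Ψ` is the product of `ψ` and of `k` at the places prime to `b` -/
def FrK (b : 𝓞 K) (Ψ : Ideal (𝓞 F) → 𝓞 K) : Prop :=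
  ∀ w : HeightOneSpectrum (𝓞 G), w.valuation G (algebraMap K G (b : K)) = 1 → ∀ g : Gal(G/F),
    (∀ x : 𝓞 G, g • x - x ^ (Ideal.absNorm (w.under (𝓞 F)).asIdeal) ∈ w.asIdeal) →
    Ψ (w.under (𝓞 F)).asIdeal = k g * psi F (w.under (𝓞 F)).asIdeal

/-- The package which is carried along the tower; `Ψ` is the Hecke character of the twist. -/
structure AWK (b ϖ : 𝓞 K) (ℓ : ℕ) (Ψ : Ideal (𝓞 F) → 𝓞 K) : Prop where
  /-- `k` is a character -/
  kap : Kap F G k
  /-- the degree of `G` over `F` is prime to `ℓ` -/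
  deg : (Module.finrank F G).Coprime ℓ
  /-- `b` is prime to `ℓ` -/
  bl : IsCoprime b (ℓ : 𝓞 K)
  /-- `b` is divisible by the bad places of `E` -/
  bad : bO ∣ b
  /-- `G` is unramified over `F` outside `b` -/
  ur : ∀ w : HeightOneSpectrum (𝓞 G), w.valuation G (algebraMap K G (b : K)) = 1 →
    w.asIdeal.ramificationIdx (𝓞 F) = 1
  /-- the character of the twist -/
  fr : FrK F G k b Ψ
  /-- the orders of `ℓ` are powers of `ℓ` -/
  ep : EP ℓ G
  /-- the places of `F` which are ramified over `ℓ` are not anomalous for the twist -/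
  na : ∀ v : HeightOneSpectrum (𝓞 F), v.valuation F (ℓ : F) < 1 → od v (ℓ : F) ≠ 1 →
    IsCoprime (Ψ v.asIdeal - 1) (ℓ : 𝓞 K)
  /-- if `ℓ` is inert it is unramified -/
  un : ¬ IsCoprime ϖ (cj ϖ) → UnrL ℓ G
  /-- the Selmer group is trivial -/
  vt : VTK F G k ϖ ℓ
  /-- the decomposition groups at the places above `b` act non-trivially for the twisted action -/
  dt : DTK F G k b ϖ

end

end Pool.Agent.Lib.MP_1a91b9_nuY.TS
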