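import Pool.Agent.Lib.MP_1a91b9_nuY.TS.Defs

/-!
# The twisted action; isotypic classes
-/

set_option autoImplicit false
set_option linter.unusedSectionVars false

namespace Pool.Agent.Lib.MP_1a91b9_nuY.TS

open NumberField IsDedekindDomain WeierstrassCurve Pool.Agent.Lib.MP_1a91b9_nuT
open Pool.Agent.Lib.MP_1a91b9_nuX Pool.Agent.Lib.MP_1a91b9_nuX.DB Pool.Agent.Lib.MP_1a91b9_nuX.DX
open Pool.Agent.Lib.MP_1a91b9_nuX.DS
open Pool.Agent.Lib.MP_1a91b9_nuW.W Pool.Agent.Lib.MP_1a91b9_nuW.DS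

variable [CD]

universe u

section
variable {F G : Type u} [Field F] [Field G] [Algebra F G] {k : Gal(G/F) → 𝓞 K} (hk : Kap F G k)
include hk

theorem Kap.ne (s : Gal(G/F)) {ϖ : 𝓞 K} (hp : Prime ϖ) : ¬ ϖ ∣ k s := fun hd =>
  hp.not_isUnit (isUnit_of_dvd_one (by rw [← hk.nrm s]; exact hd.mul_right _))

theorem Kap.isUnit (s : Gal(G/F)) : IsUnit (k s) := IsUnit.of_mul_eq_one _ (hk.nrm s)

theorem Kap.inv (s : Gal(G/F)) : k s * k s⁻¹ = 1 := by rw [← hk.mul, mul_inv_cancel, hk.one]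

end

section
variable {F G N : Type u} [Field F] [NumberField F] [Algebra K F]
  [Field G] [NumberField G] [Algebra K G] [Algebra F G] [IsScalarTower K F G] [IsGalois F G]
  [Field N] [NumberField N] [Algebra K N] [Algebra F N] [Algebra G N] [IsScalarTower K F N]
  [IsScalarTower K G N] [IsScalarTower F G N] [DecidableEq N]
  {k : Gal(G/F) → 𝓞 K}

theorem gk_def (g : Gal(N/F)) (P : Pt N) : gk G k g P = sm N (k (rs G g)) (ga g P) := rfl

theorem gk_zero (g : Gal(N/F)) : gk G k g (0 : Pt N) = 0 := by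
  rw [gk_def, map_zero, map_zero]

theorem gk_add (g : Gal(N/F)) (P Q : Pt N) : gk G k g (P + Q) = gk G k g P + gk G k g Q := by
  rw [gk_def, map_add, map_add]
  rfl

theorem sm_comm (a b : 𝓞 K) (P : Pt N) : sm N a (sm N b P) = sm N b (sm N a P) := by
  have h1 : sm N (a * b) P = sm N (b * a) P := by rw [mul_comm]
  rw [map_mul, map_mul] at h1
  exact h1

theorem sm_mul (a b : 𝓞 K) (P : Pt N) : sm N (a * b) P = sm N a (sm N b P) := by
  rw [map_mul]
  rfl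

theorem sm_one (P : Pt N) : sm N (1 : 𝓞 K) P = P := by
  rw [map_one]
  rfl

theorem gk_sm (g : Gal(N/F)) (c : 𝓞 K) (P : Pt N) : gk G k g (sm N c P) = sm N c (gk G k g P) := by
  rw [gk_def, gk_def, ga_sm, sm_comm]

/-- the action of `k(g) g` in terms of that of `g` -/
theorem gk_of_ga {g : Gal(N/F)} {c : 𝓞 K} {P : Pt N} (h : ga g P = sm N c P) :
    gk G k g P = sm N (k (rs G g) * c) P := by
  rw [gk_def, h, sm_mul]

variable (hk : Kap F G k)
include hk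

theorem gk_mul (g h : Gal(N/F)) (P : Pt N) : gk G k (g * h) P = gk G k g (gk G k h P) := by
  rw [gk_def, rs_mul, hk.mul, sm_mul, ga_mul, gk_def (g := h), gk_sm, gk_def, sm_comm]

theorem gk_one (P : Pt N) : gk G k (1 : Gal(N/F)) P = P := by
  have e : rs G (1 : Gal(N/F)) = 1 := rs_toF (1 : Gal(N/G))
  rw [gk_def, e, hk.one, sm_one, ga_one]

theorem gk_toF (g : Gal(N/G)) (P : Pt N) : gk G k (toF F g) P = ga g P := by
  rw [gk_def, rs_toF, hk.one, sm_one, ga_toF]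

theorem ga_of_gk {g : Gal(N/F)} {c : 𝓞 K} {P : Pt N} (h : gk G k g P = sm N c P) :
    ga g P = sm N (cj (k (rs G g)) * c) P := by
  rw [sm_mul, ← h, gk_def, ← sm_mul, mul_comm, hk.nrm, sm_one]

theorem gk_inv {g : Gal(N/F)} {P Q : Pt N} (h : gk G k g P = Q) : gk G k g⁻¹ Q = P := by
  rw [← h, ← gk_mul hk, inv_mul_cancel, gk_one hk]

theorem exists_gk {ϖ : 𝓞 K} (hp : Prime ϖ) {P : Pt N} (hP : Ord ϖ P) (g : Gal(N/F)) :
    ∃ c : 𝓞 K, ¬ ϖ ∣ c ∧ gk G k g P = sm N c P := by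
  obtain ⟨c, hc1, hc2⟩ := gal_sm (k := F) hp.ne_zero hP g
  refine ⟨k (rs G g) * c, fun hd => ?_, gk_of_ga hc2⟩
  rcases hp.dvd_or_dvd hd with h1 | h1
  · exact hk.ne _ hp h1
  · exact hp.not_isUnit (hc1.isUnit_of_dvd' h1 dvd_rfl)

omit [DecidableEq N] in
theorem sg_toF (g : Gal(N/G)) (y : Nˣ) : sg (toF F g) y = sg g y := rfl

theorem IsoK.iso {ℓ : ℕ} {P : Pt N} {y : Nˣ} (h : IsoK G k ℓ P y) : Iso G ℓ P y := by
  obtain ⟨A, hA⟩ := h
  exact ⟨A, fun σ c hc => hA (toF F σ) c (by rw [gk_toF hk]; exact hc)⟩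

end

section
variable {F G N : Type u} [Field F] [NumberField F] [Algebra K F]
  [Field G] [NumberField G] [Algebra K G] [Algebra F G] [IsScalarTower K F G] [IsGalois F G]
  [Field N] [NumberField N] [Algebra K N] [Algebra F N] [Algebra G N] [IsScalarTower K F N]
  [IsScalarTower K G N] [IsScalarTower F G N] [DecidableEq N]
  {k : Gal(G/F) → 𝓞 K} (hk : Kap F G k) {ϖ : 𝓞 K} {ℓ q : ℕ} (h : PD ϖ ℓ q) {P : Pt N}
  (hF : Full G ϖ P)
include hk h hF

theorem IsoK.map_dvd {y : Nˣ} {A : 𝓞 K →+ El ℓ N} (hA : ∀ (g : Gal(N/F)) (c : 𝓞 K),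
    gk G k g P = sm N c P → el ℓ (sg g y) = A c) {c : 𝓞 K} (hc : ϖ ∣ c) : A c = 0 :=
  Iso.map_dvd h hF (fun σ c hc => hA (toF F σ) c (by rw [gk_toF hk]; exact hc)) hc

theorem IsoK.mul {a b : Nˣ} (ha : IsoK G k ℓ P a) (hb : IsoK G k ℓ P b) :
    IsoK G k ℓ P (a * b) := by
  obtain ⟨A, hA⟩ := ha
  obtain ⟨B, hB⟩ := hb
  refine ⟨AddMonoidHom.mk' (fun c => A c + B c) (fun x y => ?_), fun σ c hc => ?_⟩
  · rw [map_add, map_add]
    exact add_add_add_comm _ _ _ _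
  · rw [sg_mul, el_mul, hA σ c hc, hB σ c hc]
    rfl

theorem IsoK.inv {a : Nˣ} (ha : IsoK G k ℓ P a) : IsoK G k ℓ P a⁻¹ := by
  obtain ⟨A, hA⟩ := ha
  refine ⟨AddMonoidHom.mk' (fun c => -A c) (fun x y => ?_), fun σ c hc => ?_⟩
  · rw [map_add]
    exact neg_add (α := El ℓ N) _ _
  · rw [sg_inv, el_inv, hA σ c hc]
    rfl

/-- if an automorphism which is not trivial for the twist fixes the place `w`, the order at `w` of
an isotypic element is divisible by `ℓ` -/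
theorem IsoK.od_fix {a : Nˣ} (ha : IsoK G k ℓ P a) {w : HeightOneSpectrum (𝓞 N)} {g : Gal(N/F)}
    (hg : gpl g w = w) {c : 𝓞 K} (hc : gk G k g P = sm N c P) (hc1 : ¬ ϖ ∣ c - 1) :
    (ℓ : ℤ) ∣ od w (a : N) := by
  obtain ⟨A, hA⟩ := ha
  let O : Additive Nˣ →+ ZMod ℓ :=
    { toFun := fun y => ((od w ((Additive.toMul y : Nˣ) : N) : ℤ) : ZMod ℓ)
      map_zero' := by
        show ((od w ((1 : Nˣ) : N) : ℤ) : ZMod ℓ) = 0
        rw [Units.val_one, od_one, Int.cast_zero]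
      map_add' := fun x y => by
        show ((od w (((Additive.toMul x * Additive.toMul y : Nˣ)) : N) : ℤ) : ZMod ℓ) = _
        rw [Units.val_mul, od_mul w (Units.ne_zero _) (Units.ne_zero _), Int.cast_add] }
  have hO : (nsmulAddMonoidHom (α := Additive Nˣ) ℓ).range ≤ O.ker := by
    rintro _ ⟨y, rfl⟩
    rw [AddMonoidHom.mem_ker]
    show O (ℓ • y) = 0
    rw [map_nsmul, nsmul_eq_mul, ZMod.natCast_self, zero_mul]
  let H : 𝓞 K →+ ZMod ℓ := (QuotientAddGroup.lift _ O hO).comp A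
  have hH : ∀ (σ : Gal(N/F)) (c : 𝓞 K), gk G k σ P = sm N c P →
      ((od w ((sg σ a : Nˣ) : N) : ℤ) : ZMod ℓ) = H c := by
    intro σ c hc
    change _ = (QuotientAddGroup.lift _ O hO) (A c)
    rw [← hA σ c hc]
    rfl
  obtain ⟨d, e, he⟩ := h.inv hc1
  have hd0 : ¬ ϖ ∣ d := by
    intro hd
    apply h.prime.not_isUnit
    apply isUnit_of_dvd_one
    have e1 : (1 : 𝓞 K) = (c - 1) * d - ϖ * e := by
      rw [← he]
      ring
    rw [e1]
    exact dvd_sub (hd.mul_left _) (dvd_mul_right _ _)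
  obtain ⟨τ, hτ⟩ := hF.all d hd0
  have hτ' : gk G k (toF F τ) P = sm N d P := by rw [gk_toF hk]; exact hτ
  have h1 := hH (toF F τ) d hτ'
  have h2 := hH (g * toF F τ) (d * c) (by rw [gk_mul hk, hτ', gk_sm, hc, sm_mul])
  have h3 : od w ((sg (g * toF F τ) a : Nˣ) : N) = od w ((sg (toF F τ) a : Nˣ) : N) := by
    rw [sg_sg, sg_coe]
    nth_rewrite 1 [← hg]
    exact gpl_od g w _
  rw [h3, h1] at h2
  have hdvd : ∀ x : 𝓞 K, ϖ ∣ x → H x = 0 := fun x hx => by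
    change (QuotientAddGroup.lift _ O hO) (A x) = 0
    rw [IsoK.map_dvd hk h hF hA hx, map_zero]
  have h4 : H ((c - 1) * d) = 0 := by
    have e1 : (c - 1) * d = d * c - d := by ring
    rw [e1, map_sub, ← h2, sub_self]
  have h5 : H (ϖ * e) = 0 := hdvd _ (dvd_mul_right _ _)
  have h6 : H 1 = 0 := by
    have e1 : (1 : 𝓞 K) = (c - 1) * d - ϖ * e := by
      rw [← he]
      ring
    rw [e1, map_sub, h4, h5, sub_self]
  have h7 := hH 1 1 (by rw [gk_one hk, sm_one])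
  rw [h6] at h7
  exact (ZMod.intCast_zmod_eq_zero_iff_dvd _ _).1 h7

/-- the order at a place fixed by an automorphism which moves `P` for the twisted action -/
theorem IsoK.od_dt {a : Nˣ} (ha : IsoK G k ℓ P a) {w : HeightOneSpectrum (𝓞 N)} {g : Gal(N/F)}
    (hgP : gk G k g P ≠ P) (hg : gpl g w = w) : (ℓ : ℤ) ∣ od w (a : N) := by
  obtain ⟨c, -, hc⟩ := exists_gk hk h.prime hF.ord g
  refine IsoK.od_fix hk h hF ha hg hc fun hd => hgP ?_
  rw [hc, (hF.ord.sm_eq_iff c 1).2 hd, sm_one]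

end

end Pool.Agent.Lib.MP_1a91b9_nuY.TS
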