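import Pool.Agent.Lib.MP_1a91b9_nuY.TS.Iso

/-!
# The automorphisms of the square
-/

set_option autoImplicit false
set_option linter.unusedSectionVars false

namespace Pool.Agent.Lib.MP_1a91b9_nuY.TS

open NumberField IsDedekindDomain WeierstrassCurve Pool.Agent.Lib.MP_1a91b9_nuT
open Pool.Agent.Lib.MP_1a91b9_nuX Pool.Agent.Lib.MP_1a91b9_nuX.DB Pool.Agent.Lib.MP_1a91b9_nuX.DX
open Pool.Agent.Lib.MP_1a91b9_nuX.DS
open Pool.Agent.Lib.MP_1a91b9_nuW.W Pool.Agent.Lib.MP_1a91b9_nuW.DS

variable [CD]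

universe u

section
variable {F N L : Type u} [Field F] [NumberField F] [Algebra K F] [Field N] [NumberField N]
  [Algebra K N] [Field L] [NumberField L] [Algebra K L] [Algebra F N] [Algebra F L] [Algebra N L]
  [IsScalarTower K F N] [IsScalarTower K F L] [IsScalarTower K N L] [IsScalarTower F N L]
  [IsGalois F N]

theorem rs_I (g : Gal(L/F)) : rs N g⁻¹ = (rs N g)⁻¹ := by
  apply eq_inv_of_mul_eq_one_left
  rw [← rs_mul, inv_mul_cancel]
  exact rs_toF (1 : Gal(L/N))

end

/-- the square of the fields: `F'/F` and `G'/G` of degree `ℓ`, `G' = G F'` -/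
structure SqF (F F' G G' : Type u) [Field F] [Field F'] [Field G] [Field G'] [Algebra F F']
    [Algebra F' G'] [Algebra G G'] (ℓ : ℕ) : Prop where
  deg : Module.finrank F F' = ℓ
  deg' : Module.finrank G G' = ℓ
  gen : ∀ σ : Gal(G'/F'), (∀ x : G, σ (algebraMap G G' x) = algebraMap G G' x) → σ = 1

section
variable {F F' G G' N N' : Type u}
  [Field F] [NumberField F] [Algebra K F]
  [Field F'] [NumberField F'] [Algebra K F'] [Algebra F F'] [IsScalarTower K F F'] [IsGalois F F']
  [Field G] [NumberField G] [Algebra K G] [Algebra F G] [IsScalarTower K F G] [IsGalois F G]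
  [Field G'] [NumberField G'] [Algebra K G'] [Algebra F' G'] [IsScalarTower K F' G']
  [IsGalois F' G'] [Algebra G G'] [IsScalarTower K G G'] [IsGalois G G'] [Algebra F G']
  [IsScalarTower F F' G'] [IsScalarTower F G G'] [IsScalarTower K F G'] [IsGalois F G']
  [Field N] [NumberField N] [Algebra K N] [Algebra F N] [Algebra G N] [IsScalarTower K F N]
  [IsScalarTower K G N] [IsScalarTower F G N] [DecidableEq N] [IsGalois F N] [IsGalois G N]
  [Field N'] [NumberField N'] [Algebra K N'] [Algebra F' N'] [Algebra G' N']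
  [IsScalarTower K F' N'] [IsScalarTower K G' N'] [IsScalarTower F' G' N'] [DecidableEq N']
  [IsGalois F' N'] [IsGalois G' N'] [Algebra F N'] [Algebra G N'] [Algebra N N']
  [IsScalarTower F F' N'] [IsScalarTower K F N'] [IsScalarTower K G N'] [IsScalarTower G G' N']
  [IsScalarTower K N N'] [IsScalarTower F N N'] [IsScalarTower G N N'] [IsScalarTower F G N']
  [IsScalarTower F G' N'] [IsGalois F N'] [IsGalois G N'] [IsGalois N N']
  {ϖ : 𝓞 K} {ℓ q : ℕ} (hQ : SqF F F' G G' ℓ) {P : Pt N} {P' : Pt N'}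
  (hS : Sq G G' ϖ ℓ P P')
include hQ hS

/-- an automorphism of `N'` which is trivial on `N` and on `F'` is trivial -/
theorem ext_NF (t : Gal(N'/F)) (h1 : rs N t = 1) (h2 : rs F' t = 1) : t = 1 := by
  obtain ⟨t', rfl⟩ := exists_of_rs_one (F := F) (N := F') (L := N') t h2
  have h3 : rs G' t' = 1 := by
    refine hQ.gen _ fun x => ?_
    apply (algebraMap G' N').injective
    rw [rs_apply, ← IsScalarTower.algebraMap_apply G G' N',
      IsScalarTower.algebraMap_apply G N N']
    have h4 := rs_apply (N := N) (toF F t') (algebraMap G N x)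
    rw [h1] at h4
    exact h4.symm
  obtain ⟨t'', rfl⟩ := exists_of_rs_one (F := F') (N := G') (L := N') t' h3
  have h5 : ga (toF F (toF F' t'')) P' = P' := by
    have h6 := ga_up (N := N) (toF F (toF F' t'')) P
    rw [h1, ga_one] at h6
    have h7 : up N' P = P' := hS.map
    rw [h7] at h6
    exact h6
  have h6 : t'' = 1 := hS.full'.gen t'' h5
  rw [h6]
  rfl

include hQ in
omit hS in
/-- the Galois group of `F'/F` is commutative -/
theorem comm_FF (h : PD ϖ ℓ q) (s t : Gal(F'/F)) : s * t = t * s := by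
  have hp : Fact ℓ.Prime := ⟨h.hl⟩
  have hfin : FiniteDimensional F F' :=
    Module.finite_of_finrank_pos (by rw [hQ.deg]; exact h.hl.pos)
  have hcard : Nat.card Gal(F'/F) = ℓ := by rw [IsGalois.card_aut_eq_finrank, hQ.deg]
  have hcyc : IsCyclic Gal(F'/F) := isCyclic_of_prime_card hcard
  exact (IsCyclic.isMulCommutative (α := Gal(F'/F))).is_comm.comm s t

/-- the automorphisms over `N` commute with all the automorphisms over `F` -/
theorem comm_F (h : PD ϖ ℓ q) (γ : Gal(N'/N)) (s : Gal(N'/F)) (y : N') : s (γ y) = γ (s y) := by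
  have e : (toF F γ * s)⁻¹ * (s * toF F γ) = 1 := by
    refine ext_NF hQ hS _ ?_ ?_
    · rw [rs_mul, rs_I, rs_mul, rs_mul, rs_toF, one_mul, mul_one, inv_mul_cancel]
    · rw [rs_mul, rs_I, rs_mul, rs_mul, comm_FF hQ h (rs F' s), inv_mul_cancel]
  have h2 : s * toF F γ = toF F γ * s := (inv_mul_eq_one.1 e).symm
  have h3 := congrArg (fun g : Gal(N'/F) => g y) h2
  exact h3

theorem comm_F' (h : PD ϖ ℓ q) (γ : Gal(N'/N)) (s : Gal(N'/F')) (y : N') : s (γ y) = γ (s y) :=
  comm_F hQ hS h γ (toF F s) y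

/-- the automorphisms of `N` lift to automorphisms which are trivial on `F'` -/
theorem liftK (h : PD ϖ ℓ q) (g : Gal(N/F)) :
    ∃ g' : Gal(N'/F'), ∀ y : N, g' (algebraMap N N' y) = algebraMap N N' (g y) := by
  obtain ⟨s, hs⟩ := exists_lift (L := N') g
  -- the map `Gal(N'/N) → Gal(F'/F)` is bijective
  have hfin : FiniteDimensional F F' :=
    Module.finite_of_finrank_pos (by rw [hQ.deg]; exact h.hl.pos)
  have hfin' : FiniteDimensional N N' :=
    Module.finite_of_finrank_pos (by rw [hS.deg']; exact h.hl.pos)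
  let f : Gal(N'/N) → Gal(F'/F) := fun γ => rs F' (toF F γ)
  have hinj : Function.Injective f := by
    intro a b hab
    have h1 : toF F a = toF F b := by
      have h2 : (toF F a)⁻¹ * toF F b = 1 := by
        refine ext_NF hQ hS _ ?_ ?_
        · rw [rs_mul, rs_I, rs_toF, rs_toF, inv_one, one_mul]
        · rw [rs_mul, rs_I]
          change (f a)⁻¹ * f b = 1
          rw [hab, inv_mul_cancel]
      exact inv_mul_eq_one.1 h2
    apply AlgEquiv.ext
    intro x
    exact congrArg (fun u : Gal(N'/F) => u x) h1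
  have hcard : Nat.card Gal(N'/N) = Nat.card Gal(F'/F) := by
    rw [IsGalois.card_aut_eq_finrank, IsGalois.card_aut_eq_finrank, hS.deg', hQ.deg]
  have hsurj : Function.Surjective f := by
    have hF1 : Finite Gal(N'/N) := inferInstance
    have hF2 : Finite Gal(F'/F) := inferInstance
    exact ((Nat.bijective_iff_injective_and_card f).2 ⟨hinj, hcard⟩).2
  obtain ⟨δ, hδ⟩ := hsurj (rs F' s)
  have h1 : rs F' (s * (toF F δ)⁻¹) = 1 := by
    rw [rs_mul, rs_I]
    change rs F' s * (f δ)⁻¹ = 1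
    rw [hδ, mul_inv_cancel]
  obtain ⟨g', hg'⟩ := exists_of_rs_one (F := F) (N := F') (L := N') _ h1
  refine ⟨g', fun y => ?_⟩
  have h4 : toF F g' (algebraMap N N' y) = (s * (toF F δ)⁻¹) (algebraMap N N' y) := by rw [hg']
  rw [toF_apply] at h4
  have h5 : (s * (toF F δ)⁻¹) (algebraMap N N' y) = s (algebraMap N N' y) := by
    have h6 : (toF F δ)⁻¹ = toF F δ⁻¹ := rfl
    rw [AlgEquiv.mul_apply, h6, toF_apply, AlgEquiv.commutes]
  rw [h4, h5, ← hs, rs_apply]

end

end Pool.Agent.Lib.MP_1a91b9_nuY.TS
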