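import Mathlib

/-!
# Galois extensions and composita
-/

set_option autoImplicit false

namespace Pool.Agent.Lib.MP_1a91b9_nuY.TS

universe u

section
variable (A B C D : Type u) [Field A] [Field B] [Field C] [Field D] [Algebra A B] [Algebra A C]
  [Algebra B D] [Algebra C D] [Algebra A D] [IsScalarTower A B D] [IsScalarTower A C D]

theorem sup_ranges (h : IntermediateField.adjoin C (Set.range (algebraMap B D)) = ⊤) :
    (IsScalarTower.toAlgHom A B D).fieldRange ⊔ (IsScalarTower.toAlgHom A C D).fieldRange = ⊤ := by
  have key : ∀ x : D, x ∈ IntermediateField.adjoin C (Set.range (algebraMap B D)) →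
      x ∈ (IsScalarTower.toAlgHom A B D).fieldRange ⊔ (IsScalarTower.toAlgHom A C D).fieldRange := by
   intro x hx
   induction hx using IntermediateField.adjoin_induction with
   | mem x hx =>
     obtain ⟨y, rfl⟩ := hx
     exact (le_sup_left : (IsScalarTower.toAlgHom A B D).fieldRange ≤ _) ⟨y, rfl⟩
   | algebraMap x =>
     exact (le_sup_right : (IsScalarTower.toAlgHom A C D).fieldRange ≤ _) ⟨x, rfl⟩
   | add x y _ _ h1 h2 => exact add_mem h1 h2
   | inv x _ h1 => exact inv_mem h1
   | mul x y _ _ h1 h2 => exact mul_mem h1 h2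
  rw [eq_top_iff]
  intro x _
  exact key x (by rw [h]; exact IntermediateField.mem_top)

/-- the compositum of a Galois extension with a field -/
theorem gal_comp [IsGalois A B] [FiniteDimensional A B]
    (h : IntermediateField.adjoin C (Set.range (algebraMap B D)) = ⊤) : IsGalois C D := by
  let fB : B →ₐ[A] D := IsScalarTower.toAlgHom A B D
  let fC : C →ₐ[A] D := IsScalarTower.toAlgHom A C D
  have gB : IsGalois A fB.fieldRange := IsGalois.of_algEquiv (AlgEquiv.ofInjectiveField fB)
  have hfin : FiniteDimensional A fB.fieldRange :=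
    LinearMap.finiteDimensional_range fB.toLinearMap
  have h1 : IsGalois fC.fieldRange D :=
    IsGalois.sup_right fB.fieldRange fC.fieldRange (sup_ranges A B C D h)
  let e : fC.fieldRange ≃+* C := (AlgEquiv.ofInjectiveField fC).symm.toRingEquiv
  refine @IsGalois.of_equiv_equiv fC.fieldRange D _ _ _ C D _ _ _ h1 e (RingEquiv.refl D) ?_
  ext x
  obtain ⟨y, rfl⟩ := (AlgEquiv.ofInjectiveField fC).surjective x
  change algebraMap C D ((AlgEquiv.ofInjectiveField fC).symm (AlgEquiv.ofInjectiveField fC y)) = _
  rw [AlgEquiv.symm_apply_apply]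
  rfl

/-- the compositum of two Galois extensions -/
theorem gal_sup [IsGalois A B] [IsGalois A C] [CharZero A]
    (h : IntermediateField.adjoin C (Set.range (algebraMap B D)) = ⊤) [Algebra.IsAlgebraic A D] :
    IsGalois A D := by
  let fB : B →ₐ[A] D := IsScalarTower.toAlgHom A B D
  let fC : C →ₐ[A] D := IsScalarTower.toAlgHom A C D
  have gB : Normal A fB.fieldRange := Normal.of_algEquiv (AlgEquiv.ofInjectiveField fB)
  have gC : Normal A fC.fieldRange := Normal.of_algEquiv (AlgEquiv.ofInjectiveField fC)
  have h1 : Normal A ↥(fB.fieldRange ⊔ fC.fieldRange) := inferInstance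
  have h2 := sup_ranges A B C D h
  rw [h2] at h1
  have h3 : Normal A D := Normal.of_algEquiv IntermediateField.topEquiv
  exact ⟨⟩

end

end Pool.Agent.Lib.MP_1a91b9_nuY.TS
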