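import Pool.Agent.Lib.MP_1a91b9_nuY.TS.Comm

/-!
# The Frobenius automorphisms over `F` and the twisted action
-/

set_option autoImplicit false
set_option linter.unusedSectionVars false

namespace Pool.Agent.Lib.MP_1a91b9_nuY.TS

open NumberField IsDedekindDomain WeierstrassCurve Pool.Agent.Lib.MP_1a91b9_nuT
open Pool.Agent.Lib.MP_1a91b9_nuX Pool.Agent.Lib.MP_1a91b9_nuX.DB Pool.Agent.Lib.MP_1a91b9_nuX.DX
open Pool.Agent.Lib.MP_1a91b9_nuX.DS
open Pool.Agent.Lib.MP_1a91b9_nuW.W Pool.Agent.Lib.MP_1a91b9_nuW.DS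

variable [CD]

universe u

section
variable {F G L : Type u} [Field F] [NumberField F] [Algebra K F]
  [Field G] [NumberField G] [Algebra K G] [Algebra F G] [IsScalarTower K F G] [IsGalois F G]
  [Field L] [NumberField L] [Algebra K L] [Algebra F L] [Algebra G L] [IsScalarTower K F L]
  [IsScalarTower K G L] [IsScalarTower F G L] [DecidableEq L]

/-- the places prime to `b` are prime to `CD.bad` -/
theorem bD_of_b {b : 𝓞 K} (hbad : bO ∣ b) {W : HeightOneSpectrum (𝓞 L)}
    (hb : W.valuation L (algebraMap K L (b : K)) = 1) : W.valuation L (bD L) = 1 := by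
  obtain ⟨c, rfl⟩ := hbad
  have e : algebraMap K L (((bO * c : 𝓞 K)) : K) = bD L * algebraMap K L (c : K) := by
    rw [← bO_map, ← map_mul]
    rfl
  rw [e, map_mul] at hb
  have h1 := v_int_le (W.valuation L) CD.bad
  have h2 := v_alg_le (W.valuation L) c
  refine le_antisymm h1 ?_
  rw [← hb]
  exact mul_le_of_le_one_right' h2

variable [HC]

/-- the restriction to `G` of a Frobenius automorphism -/
theorem frob_rs (W : HeightOneSpectrum (𝓞 L)) {g : Gal(L/F)}
    (hg : ∀ x : 𝓞 L, g • x - x ^ (Ideal.absNorm (W.under (𝓞 F)).asIdeal) ∈ W.asIdeal) :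
    ∀ x : 𝓞 G, rs G g • x - x ^ (Ideal.absNorm ((W.under (𝓞 G)).under (𝓞 F)).asIdeal) ∈
      (W.under (𝓞 G)).asIdeal := by
  intro x
  rw [under_under]
  change algebraMap (𝓞 G) (𝓞 L) (rs G g • x - x ^ _) ∈ W.asIdeal
  have e : algebraMap (𝓞 G) (𝓞 L) (rs G g • x) = g • algebraMap (𝓞 G) (𝓞 L) x := by
    apply RingOfIntegers.ext
    change algebraMap G L (rs G g (x : G)) = g (algebraMap G L (x : G))
    exact rs_apply g _
  rw [map_sub, map_pow, e]
  exact hg _

/-- a Frobenius automorphism over `F` and its twisted action on the points of order prime to the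
place -/
theorem exists_frK [IsGalois F L] {k : Gal(G/F) → 𝓞 K} {b : 𝓞 K} {Ψ : Ideal (𝓞 F) → 𝓞 K}
    (hfr : FrK F G k b Ψ) (hbad : bO ∣ b) (W : HeightOneSpectrum (𝓞 L))
    (hb : W.valuation L (algebraMap K L (b : K)) = 1) :
    ∃ g : Gal(L/F), gpl g W = W ∧
      Ψ (W.under (𝓞 F)).asIdeal = k (rs G g) * psi F (W.under (𝓞 F)).asIdeal ∧
      ∀ (γ : 𝓞 K) (R : Pt L), W.valuation L (algebraMap K L (γ : K)) = 1 → sm L γ R = 0 →
        ga g R = sm L (psi F (W.under (𝓞 F)).asIdeal) R ∧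
        gk G k g R = sm L (Ψ (W.under (𝓞 F)).asIdeal) R := by
  obtain ⟨g, hg, hgW⟩ := exists_frobW (k := F) W
  have hbG : (W.under (𝓞 G)).valuation G (algebraMap K G (b : K)) = 1 := by
    rw [← val_map_eq, ← IsScalarTower.algebraMap_apply K G L]
    exact hb
  have h1 := hfr (W.under (𝓞 G)) hbG (rs G g) (frob_rs W hg)
  rw [under_under] at h1
  refine ⟨g, hgW, h1, fun γ R hγ hR => ?_⟩
  have h2 := frob (k := F) W (bD_of_b hbad hb) g hg hγ hR
  exact ⟨h2, by rw [gk_of_ga h2, h1]⟩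

end

end Pool.Agent.Lib.MP_1a91b9_nuY.TS
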