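import Pool.Agent.Lib.MP_1a91b9_nuY.TS.Sel

/-!
# The projection onto the isotypic classes of the twist
-/

set_option autoImplicit false
set_option linter.unusedSectionVars false

namespace Pool.Agent.Lib.MP_1a91b9_nuY.TS

open NumberField IsDedekindDomain WeierstrassCurve Pool.Agent.Lib.MP_1a91b9_nuT
open Pool.Agent.Lib.MP_1a91b9_nuX Pool.Agent.Lib.MP_1a91b9_nuX.DB Pool.Agent.Lib.MP_1a91b9_nuX.DX
open Pool.Agent.Lib.MP_1a91b9_nuX.DS
open Pool.Agent.Lib.MP_1a91b9_nuW.W Pool.Agent.Lib.MP_1a91b9_nuW.DS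

variable [CD]

universe u

section
variable {F G N : Type u} [Field F] [NumberField F] [Algebra K F]
  [Field G] [NumberField G] [Algebra K G] [Algebra F G] [IsScalarTower K F G] [IsGalois F G]
  [Field N] [NumberField N] [Algebra K N] [Algebra F N] [Algebra G N] [IsScalarTower K F N]
  [IsScalarTower K G N] [IsScalarTower F G N] [DecidableEq N]
  {k : Gal(G/F) → 𝓞 K}

theorem IsoK.pow {ℓ : ℕ} {P : Pt N} {a : Nˣ} (ha : IsoK G k ℓ P a) (m : ℕ) :
    IsoK G k ℓ P (a ^ m) := by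
  obtain ⟨A, hA⟩ := ha
  refine ⟨AddMonoidHom.mk' (fun c => m • A c) (fun x y => ?_), fun σ c hc => ?_⟩
  · rw [map_add]
    exact nsmul_add _ _ _
  · rw [sg_pow, el_pow, hA σ c hc]
    rfl

variable (hk : Kap F G k) {ϖ : 𝓞 K} {ℓ q : ℕ} (h : PD ϖ ℓ q) {P : Pt N}
  (hF : Full G ϖ P)
include hk h hF

/-- an automorphism with given restriction to `G` which fixes the point for the twisted action -/
theorem exists_gs [IsGalois F N] (s : Gal(G/F)) : ∃ g : Gal(N/F), rs G g = s ∧ gk G k g P = P := by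
  obtain ⟨g, hg⟩ := exists_lift (L := N) s
  obtain ⟨c, hc, hgc⟩ := exists_gk hk h.prime hF.ord g
  obtain ⟨d, e, he⟩ := h.inv hc
  have hd0 : ¬ ϖ ∣ d := by
    intro hd
    apply h.prime.not_isUnit
    apply isUnit_of_dvd_one
    have e1 : (1 : 𝓞 K) = c * d - ϖ * e := by
      rw [← he]
      ring
    rw [e1]
    exact dvd_sub (hd.mul_left _) (dvd_mul_right _ _)
  obtain ⟨τ, hτ⟩ := hF.all d hd0
  refine ⟨g * toF F τ, by rw [rs_mul, rs_toF, mul_one, hg], ?_⟩
  rw [gk_mul hk, gk_toF hk, hτ, gk_sm, hgc, ← sm_mul]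
  have e2 : sm N (d * c) P = sm N (1 : 𝓞 K) P := by
    rw [hF.ord.sm_eq_iff, mul_comm, he]
    exact dvd_mul_right _ _
  rw [e2, sm_one]

/-- the product over a set of representatives is isotypic for the twist -/
theorem prod_isoK {g : Gal(G/F) → Gal(N/F)} (hg : ∀ s, rs G (g s) = s)
    (hgP : ∀ s, gk G k (g s) P = P) [Fintype Gal(G/F)] {x : Nˣ} (hx : Iso G ℓ P x) :
    IsoK G k ℓ P (∏ s : Gal(G/F), sg (g s) x) := by
  obtain ⟨A, hA⟩ := hx
  refine ⟨AddMonoidHom.mk' (fun c => ∑ s : Gal(G/F), elm ℓ (Units.map (g s : N →* N)) (A c))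
    (fun c d => ?_), fun a c hc => ?_⟩
  · rw [← Finset.sum_add_distrib]
    refine Finset.sum_congr rfl fun s _ => ?_
    rw [map_add, map_add]
  have h1 : ∀ s : Gal(G/F), el ℓ (sg (a * g s) x) =
      elm ℓ (Units.map (g (rs G a * s) : N →* N)) (A c) := by
    intro s
    have h2 : rs G ((g (rs G a * s))⁻¹ * (a * g s)) = 1 := by
      rw [rs_mul, rs_I, rs_mul, hg, hg, inv_mul_cancel]
    obtain ⟨τ, hτ⟩ := exists_of_rs_one (F := F) (N := G) (L := N) _ h2
    have h3 : ga τ P = sm N c P := by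
      rw [← gk_toF hk, hτ, gk_mul hk, gk_mul hk, hgP, hc, gk_sm, gk_inv hk (hgP _)]
    have h4 : a * g s = g (rs G a * s) * toF F τ := by rw [hτ, mul_inv_cancel_left]
    rw [h4, sg_sg, ← hA τ c h3, elm_el]
    rfl
  have h5 : sg a (∏ s : Gal(G/F), sg (g s) x) = ∏ s : Gal(G/F), sg (a * g s) x := by
    unfold sg
    rw [map_prod]
    rfl
  rw [h5, el_prod, Finset.sum_congr rfl (fun s _ => h1 s)]
  exact Equiv.sum_comp (Equiv.mulLeft (rs G a))
    (fun s => elm ℓ (Units.map (g s : N →* N)) (A c))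

end

section
variable {F F' G G' N N' : Type u}
  [Field F] [NumberField F] [Algebra K F]
  [Field F'] [NumberField F'] [Algebra K F'] [Algebra F F'] [IsScalarTower K F F'] [IsGalois F F']
  [Field G] [NumberField G] [Algebra K G] [Algebra F G] [IsScalarTower K F G] [IsGalois F G]
  [Field G'] [NumberField G'] [Algebra K G'] [Algebra F' G'] [IsScalarTower K F' G']
  [IsGalois F' G'] [Algebra G G'] [IsScalarTower K G G'] [IsGalois G G'] [Algebra F G']
  [IsScalarTower F F' G'] [IsScalarTower F G G'] [IsScalarTower K F G'] [IsGalois F G']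
  [Field N] [NumberField N] [Algebra K N] [Algebra F N] [Algebra G N] [IsScalarTower K F N]
  [IsScalarTower K G N] [IsScalarTower F G N] [DecidableEq N] [IsGalois F N] [IsGalois G N]
  [Field N'] [NumberField N'] [Algebra K N'] [Algebra F' N'] [Algebra G' N']
  [IsScalarTower K F' N'] [IsScalarTower K G' N'] [IsScalarTower F' G' N'] [DecidableEq N']
  [IsGalois F' N'] [IsGalois G' N'] [Algebra F N'] [Algebra G N'] [Algebra N N']
  [IsScalarTower F F' N'] [IsScalarTower K F N'] [IsScalarTower K G N'] [IsScalarTower G G' N']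
  [IsScalarTower K N N'] [IsScalarTower F N N'] [IsScalarTower G N N'] [IsScalarTower F G N']
  [IsScalarTower F G' N'] [IsGalois F N'] [IsGalois G N'] [IsGalois N N']
  {ϖ : 𝓞 K} {ℓ q : ℕ} (hQ : SqF F F' G G' ℓ) {P : Pt N} {P' : Pt N'}
  (hS : Sq G G' ϖ ℓ P P')
  {k : Gal(G/F) → 𝓞 K} {k' : Gal(G'/F') → 𝓞 K} (hk : Kap F G k) (hk' : Kap F' G' k')
  (hkk : ∀ s : Gal(G'/F'), k' s = k (rs G (toF F s))) (h : PD ϖ ℓ q)

include hkk in
/-- the twisted actions are compatible -/
theorem gk_up (g' : Gal(N'/F')) (Q : Pt N) :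
    gk G' k' g' (up N' Q) = up N' (gk G k (rs N (toF F g')) Q) := by
  have e1 : rs G (toF F (rs G' g')) = rs G (rs N (toF F g')) := by
    apply AlgEquiv.ext
    intro x
    apply (algebraMap G N').injective
    have h1 : algebraMap G N' (rs G (toF F (rs G' g')) x) = g' (algebraMap G N' x) := by
      rw [IsScalarTower.algebraMap_apply G G' N', rs_apply, toF_apply, rs_apply,
        ← IsScalarTower.algebraMap_apply G G' N']
    have h2 : algebraMap G N' (rs G (rs N (toF F g')) x) = g' (algebraMap G N' x) := by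
      rw [IsScalarTower.algebraMap_apply G N N', rs_apply, rs_apply, toF_apply,
        ← IsScalarTower.algebraMap_apply G N N']
    rw [h1, h2]
  have e2 : ga g' (up N' Q) = up N' (ga (rs N (toF F g')) Q) := by
    rw [← ga_up]
    rfl
  rw [gk_def, gk_def, hkk, e1, e2, up_sm]

include hQ hS hk' hk hkk h in
/-- a class of the twist which comes from below comes from a class of the twist -/
theorem exists_a1K (hcop : (Module.finrank F G).Coprime ℓ) {a d : N'ˣ} {a0 : Nˣ}
    (ha : IsoK G' k' ℓ P' a) (h0 : inU N N' a0 = a * d ^ ℓ) :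
    ∃ (a1 : Nˣ) (z : N'ˣ), IsoK G k ℓ P a1 ∧ inU N N' a1 = a * z ^ ℓ := by
  classical
  obtain ⟨x, z, hx, hxz⟩ := exists_a1 h hS (IsoK.iso hk' ha) h0
  have hfin : FiniteDimensional F G := FiniteDimensional.right ℚ F G
  choose g hg hgP using fun s : Gal(G/F) => exists_gs hk h hS.full s
  choose g' hg' using fun s : Gal(G/F) => liftK hQ hS h (g s)
  obtain ⟨A, hA⟩ := ha
  have hPP : up N' P = P' := hS.map
  have h1 : ∀ s : Gal(G/F), el ℓ (inU N N' (sg (g s) x)) = el ℓ a := by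
    intro s
    have h2 : inU N N' (sg (g s) x) = sg (g' s) (inU N N' x) := by
      refine Units.ext ?_
      rw [inU_coe, sg_coe, sg_coe, inU_coe, hg']
    have h3 : rs N (toF F (g' s)) = g s := by
      apply AlgEquiv.ext
      intro y
      apply (algebraMap N N').injective
      rw [rs_apply, toF_apply, hg']
    have h4 : gk G' k' (g' s) P' = sm N' (1 : 𝓞 K) P' := by
      rw [sm_one, ← hPP, gk_up hkk, h3, hgP]
    have h5 : gk G' k' (1 : Gal(N'/F')) P' = sm N' (1 : 𝓞 K) P' := by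
      rw [gk_one hk', sm_one]
    have h6 : el ℓ (sg (g' s) (a * z ^ ℓ)) = el ℓ (sg (g' s) a) :=
      el_eq.2 ⟨sg (g' s) z, by rw [sg_mul, sg_pow]⟩
    rw [h2, hxz, h6, hA _ _ h4, ← hA _ _ h5]
    rfl
  set n := Fintype.card Gal(G/F) with hn
  have hcop' : n.Coprime ℓ := by
    rw [hn, ← Nat.card_eq_fintype_card, IsGalois.card_aut_eq_finrank]
    exact hcop
  obtain ⟨m, -, hm⟩ := Nat.exists_mul_mod_eq_one_of_coprime hcop' h.hl.one_lt
  refine ⟨(∏ s : Gal(G/F), sg (g s) x) ^ m, ?_⟩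
  have h2 : el ℓ (inU N N' ((∏ s : Gal(G/F), sg (g s) x) ^ m)) = el ℓ a := by
    rw [map_pow, map_prod, el_pow, el_prod, Finset.sum_congr rfl (fun s _ => h1 s),
      Finset.sum_const, Finset.card_univ, ← hn, ← mul_nsmul, mul_comm]
    have h3 : m * n = 1 + ℓ * (m * n / ℓ) := by
      conv_lhs => rw [← Nat.mod_add_div (m * n) ℓ]
      rw [mul_comm m n, hm]
    have h4 : (n * m) • el ℓ a = el ℓ a := by
      rw [mul_comm n m, h3, add_nsmul, one_nsmul, mul_nsmul', nsmul_el]
      exact add_zero (el ℓ a)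
    rw [mul_comm] at h4
    exact h4
  obtain ⟨z', hz'⟩ := el_eq.1 h2
  exact ⟨z', (prod_isoK hk h hS.full hg hgP hx).pow m, hz'⟩

end

end Pool.Agent.Lib.MP_1a91b9_nuY.TS
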