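import Pool.Agent.Lib.MP_1a91b9_nuY.TS.Frb
import Pool.Agent.Lib.MP_1a91b9_nuY.TS.Proj

/-!
# The orders of the class which comes from below
-/

set_option autoImplicit false
set_option linter.unusedSectionVars false

namespace Pool.Agent.Lib.MP_1a91b9_nuY.TS

open NumberField IsDedekindDomain WeierstrassCurve Pool.Agent.Lib.MP_1a91b9_nuT
open Pool.Agent.Lib.MP_1a91b9_nuX Pool.Agent.Lib.MP_1a91b9_nuX.DB Pool.Agent.Lib.MP_1a91b9_nuX.DX
open Pool.Agent.Lib.MP_1a91b9_nuX.DS
open Pool.Agent.Lib.MP_1a91b9_nuW.W Pool.Agent.Lib.MP_1a91b9_nuW.DS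

variable [CD]

universe u

/-- multiplicativity of the ramification indices -/
theorem ram_tower (A B C : Type u) [Field A] [NumberField A] [Field B] [NumberField B] [Field C]
    [NumberField C] [Algebra A B] [Algebra B C] [Algebra A C] [IsScalarTower A B C]
    (V : HeightOneSpectrum (𝓞 C)) : V.asIdeal.ramificationIdx (𝓞 A) =
      V.asIdeal.ramificationIdx (𝓞 B) * (V.under (𝓞 B)).asIdeal.ramificationIdx (𝓞 A) := by
  obtain ⟨z, hz⟩ := exists_od_one (V.under (𝓞 A))
  have h1 := od_map (k := B) V (algebraMap A B z)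
  rw [← IsScalarTower.algebraMap_apply A B C, od_map (k := A) (L := B), under_under,
    od_map (k := A) (L := C), hz, mul_one, mul_one] at h1
  exact_mod_cast h1

variable [HC]

section
variable {F F' G G' N N' : Type u}
  [Field F] [NumberField F] [Algebra K F]
  [Field F'] [NumberField F'] [Algebra K F'] [Algebra F F'] [IsScalarTower K F F'] [IsGalois F F']
  [Field G] [NumberField G] [Algebra K G] [Algebra F G] [IsScalarTower K F G] [IsGalois F G]
  [Field G'] [NumberField G'] [Algebra K G'] [Algebra F' G'] [IsScalarTower K F' G']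
  [IsGalois F' G'] [Algebra G G'] [IsScalarTower K G G'] [IsGalois G G'] [Algebra F G']
  [IsScalarTower F F' G'] [IsScalarTower F G G'] [IsScalarTower K F G'] [IsGalois F G']
  [Field N] [NumberField N] [Algebra K N] [Algebra F N] [Algebra G N] [IsScalarTower K F N]
  [IsScalarTower K G N] [IsScalarTower F G N] [DecidableEq N] [IsGalois F N] [IsGalois G N]
  [Field N'] [NumberField N'] [Algebra K N'] [Algebra F' N'] [Algebra G' N']
  [IsScalarTower K F' N'] [IsScalarTower K G' N'] [IsScalarTower F' G' N'] [DecidableEq N']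
  [IsGalois F' N'] [IsGalois G' N'] [Algebra F N'] [Algebra G N'] [Algebra N N']
  [IsScalarTower F F' N'] [IsScalarTower K F N'] [IsScalarTower K G N'] [IsScalarTower G G' N']
  [IsScalarTower K N N'] [IsScalarTower F N N'] [IsScalarTower G N N'] [IsScalarTower F G N']
  [IsScalarTower F G' N'] [IsGalois F N'] [IsGalois G N'] [IsGalois N N']
  {ϖ : 𝓞 K} {ℓ q : ℕ} (hQ : SqF F F' G G' ℓ) {P : Pt N} {P' : Pt N'}
  (hS : Sq G G' ϖ ℓ P P')
  {k : Gal(G/F) → 𝓞 K} (h : PD ϖ ℓ q)

omit hS in
include hQ h in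
theorem finrank_GF : Module.finrank F' G' = Module.finrank F G := by
  have h1 : Module.finrank F F' * Module.finrank F' G' = Module.finrank F G' :=
    Module.finrank_mul_finrank F F' G'
  have h2 : Module.finrank F G * Module.finrank G G' = Module.finrank F G' :=
    Module.finrank_mul_finrank F G G'
  rw [hQ.deg] at h1
  rw [hQ.deg', mul_comm, ← h1] at h2
  exact (Nat.eq_of_mul_eq_mul_left h.hl.pos h2).symm

omit hS in
include hQ h in
/-- if `G'/G` ramifies at a place which is unramified over `F` then `F'/F` ramifies -/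
theorem ram_GF (hcop : (Module.finrank F G).Coprime ℓ) (V : HeightOneSpectrum (𝓞 G'))
    (hur : (V.under (𝓞 G)).asIdeal.ramificationIdx (𝓞 F) = 1) :
    V.asIdeal.ramificationIdx (𝓞 F') * (V.under (𝓞 F')).asIdeal.ramificationIdx (𝓞 F) =
      V.asIdeal.ramificationIdx (𝓞 G) ∧ V.asIdeal.ramificationIdx (𝓞 F') = 1 := by
  have h1 := ram_tower F F' G' V
  have h2 := ram_tower F G G' V
  rw [hur, mul_one] at h2
  refine ⟨h1.symm.trans h2, ?_⟩
  have h3 : V.asIdeal.ramificationIdx (𝓞 F') ∣ ℓ := by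
    have h4 := (ram_dvd G G' V).1
    rw [hQ.deg', ← h2, h1] at h4
    exact (Dvd.intro _ rfl).trans h4
  have h4 : V.asIdeal.ramificationIdx (𝓞 F') ∣ Module.finrank F G := by
    rw [← finrank_GF hQ h]
    exact (ram_dvd F' G' V).1
  have h5 := Nat.dvd_gcd h4 h3
  rw [hcop] at h5
  exact Nat.dvd_one.1 h5

variable {b : 𝓞 K} {Ψ : Ideal (𝓞 F) → 𝓞 K}

include hQ hS h in
theorem od_stepK (A : AWK F G k b ϖ ℓ Ψ)
    (ha : ∀ v : HeightOneSpectrum (𝓞 F'), v.asIdeal.ramificationIdx (𝓞 F) ≠ 1 →
      IsCoprime (Ψ (v.under (𝓞 F)).asIdeal - 1) (ℓ : 𝓞 K)) {a z : N'ˣ} {a1 : Nˣ}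
    (hod : ∀ W : HeightOneSpectrum (𝓞 N'), (ℓ : ℤ) ∣ od W (a : N'))
    (hi : IsoK G k ℓ P a1) (h1 : inU N N' a1 = a * z ^ ℓ) (w : HeightOneSpectrum (𝓞 N)) :
    (ℓ : ℤ) ∣ od w (a1 : N) := by
  obtain ⟨W, hW⟩ := over_exists (L := N') w
  rcases ram_cases h hS W with hr | hr
  · have e1 := od_map W (a1 : N)
    rw [hr, hW] at e1
    have e2 : algebraMap N N' (a1 : N) = (a : N') * (z : N') ^ ℓ := by
      have e3 := congrArg (fun u : N'ˣ => (u : N')) h1
      simpa [inU_coe] using e3
    rw [e2, od_mul _ a.ne_zero (pow_ne_zero _ z.ne_zero), od_pow] at e1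
    obtain ⟨m, hm⟩ := hod W
    refine ⟨m + od W (z : N'), ?_⟩
    rw [hm] at e1
    push_cast at e1
    linarith
  · by_cases h3 : w.valuation N (algebraMap K N (b : K)) < 1
    · obtain ⟨s, hs1, hs⟩ := A.dt N P hS.full w h3
      exact IsoK.od_dt A.kap h hS.full hi hs1 hs
    · have h3' : w.valuation N (algebraMap K N (b : K)) = 1 :=
        le_antisymm (v_alg_le (w.valuation N) _) (not_lt.1 h3)
      by_cases hp : w.valuation N (algebraMap K N (ϖ : K)) < 1
      · obtain ⟨-, -, hg⟩ := ramN h A.ep hS.full w hp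
        have h5 := h.q_five
        have hcard := Full.card h hS.full
        have hn : 1 < Nat.card Gal(N/G) := by
          rw [IsGalois.card_aut_eq_finrank G N]
          omega
        have := Finite.one_lt_card_iff_nontrivial.1 hn
        obtain ⟨σ, hσ1⟩ := exists_ne (1 : Gal(N/G))
        exact Iso.od_fix h hS.full (IsoK.iso A.kap hi) (hg σ) hσ1
      · have hp' : w.valuation N (algebraMap K N (ϖ : K)) = 1 :=
          le_antisymm (v_alg_le (w.valuation N) _) (not_lt.1 hp)
        have hwG : (W.under (𝓞 G')).under (𝓞 G) = w.under (𝓞 G) := by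
          rw [← hW, under_under, under_under]
        have hbG : (w.under (𝓞 G)).valuation G (algebraMap K G (b : K)) = 1 := by
          rw [← val_map_eq, ← IsScalarTower.algebraMap_apply K G N]
          exact h3'
        obtain ⟨h5, h6⟩ := ram_GF hQ h A.deg (W.under (𝓞 G')) (by rw [hwG]; exact A.ur _ hbG)
        have hr' : ((W.under (𝓞 G')).under (𝓞 F')).asIdeal.ramificationIdx (𝓞 F) ≠ 1 := by
          intro h7
          rw [h6, h7] at h5
          exact hr h5.symm
        have hc := ha _ hr'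
        have hv : w.under (𝓞 F) = ((W.under (𝓞 G')).under (𝓞 F')).under (𝓞 F) := by
          rw [← hW, under_under, under_under, under_under]
        rw [← hv] at hc
        obtain ⟨g, hg, -, hgP⟩ := exists_frK A.fr A.bad w h3'
        exact IsoK.od_fix A.kap h hS.full hi hg (hgP ϖ P hp' ((hS.full.ord ϖ).2 dvd_rfl)).2
          (not_dvd_of_cop h hc)

end

end Pool.Agent.Lib.MP_1a91b9_nuY.TS
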