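import Pool.Agent.Lib.MP_1a91b9_nuY.TS.Frb

/-!
# Descent of local `ℓ`-th powers: the group theory for the twist
-/

set_option autoImplicit false
set_option linter.unusedSectionVars false

namespace Pool.Agent.Lib.MP_1a91b9_nuY.TS

open NumberField IsDedekindDomain WeierstrassCurve Pool.Agent.Lib.MP_1a91b9_nuT
open Pool.Agent.Lib.MP_1a91b9_nuX Pool.Agent.Lib.MP_1a91b9_nuX.DB Pool.Agent.Lib.MP_1a91b9_nuX.DX
open Pool.Agent.Lib.MP_1a91b9_nuX.DS
open Pool.Agent.Lib.MP_1a91b9_nuW.W Pool.Agent.Lib.MP_1a91b9_nuW.DS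

variable [CD]

universe u

/-- the group theory of the step: if the class `y` of `N` and the roots of unity have different
characters for an element of the decomposition group over `F`, local `ℓ`-th powers descend -/
theorem pl_descK {F N N' M : Type u} [Field F] [NumberField F] [Field N] [NumberField N]
    [Field N'] [NumberField N'] [Field M] [NumberField M] [Algebra F N] [Algebra N N']
    [Algebra F M] [Algebra N M] [Algebra N' M] [IsScalarTower N N' M] [IsScalarTower F N M]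
    [IsGalois N N'] [IsGalois N M] {ℓ : ℕ} (hℓ : ℓ.Prime) (hd : Module.finrank N N' = ℓ)
    (V : HeightOneSpectrum (𝓞 M)) {ζ β : M} {y z : N} {m n : ℕ} (hy : y ≠ 0)
    (hζ : IsPrimitiveRoot ζ ℓ) (hβ : β ^ ℓ = algebraMap N M y)
    (hfix : ∀ σ : Gal(M/N'), gpl σ V = V → σ β = β) (σ : Gal(M/F)) (hσV : gpl σ V = V)
    (hσy : σ (algebraMap N M y) = algebraMap N M y ^ m * algebraMap N M z ^ ℓ)
    (hσζ : σ ζ = ζ ^ n) (hmn : ¬ (ℓ : ℤ) ∣ (m : ℤ) - n) (g : Gal(M/N)) (hg : gpl g V = V)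
    (hcomm : ∀ x : N', σ (g (algebraMap N' M x)) = g (σ (algebraMap N' M x))) : g β = β := by
  have hy' : algebraMap N M y ≠ 0 := (map_ne_zero _).2 hy
  have hβ0 : β ≠ 0 := by
    rintro rfl
    rw [zero_pow hℓ.ne_zero] at hβ
    exact hy' hβ.symm
  by_cases hτ : ∃ τ : Gal(M/N'), gpl τ V = V ∧ τ ζ ≠ ζ
  · obtain ⟨τ, hτV, hτ⟩ := hτ
    exact pl_desc (N' := N') hℓ V hy hζ hβ hfix hτV hτ g hg
  push Not at hτ
  have hNZ : NeZero ℓ := ⟨hℓ.ne_zero⟩
  have hFact : Fact ℓ.Prime := ⟨hℓ⟩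
  -- `g` fixes the roots of unity
  have hgζ : g ζ = ζ := by
    have h1 : (g ζ) ^ ℓ = 1 := by rw [← map_pow, hζ.pow_eq_one, map_one]
    obtain ⟨t, -, ht⟩ := hζ.eq_pow_of_pow_eq_one h1
    have h2 : ∀ j : ℕ, (g ^ j) ζ = ζ ^ (t ^ j) := by
      intro j
      induction j with
      | zero => rw [pow_zero, pow_zero, pow_one]; rfl
      | succ j ih => rw [pow_succ', AlgEquiv.mul_apply, ih, map_pow, ← ht, ← pow_mul, pow_succ']
    have h3 : rsn N' (g ^ ℓ) = 1 := by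
      have h4 : ∀ j : ℕ, rsn N' (g ^ j) = (rsn N' g) ^ j := by
        intro j
        induction j with
        | zero => rw [pow_zero, pow_zero, rsn_one]
        | succ j ih => rw [pow_succ, pow_succ, rsn_mul, ih]
      rw [h4, ← hd, ← IsGalois.card_aut_eq_finrank N N']
      exact pow_card_eq_one'
    have h4 : ∀ x : N', (g ^ ℓ).toRingEquiv (algebraMap N' M x) = algebraMap N' M x := by
      intro x
      have h5 := rsn_apply (N := N') (g ^ ℓ) x
      rw [h3] at h5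
      exact h5.symm
    have h5 : ∀ j : ℕ, gpl (g ^ j) V = V := by
      intro j
      induction j with
      | zero => rw [pow_zero, gpl_one]
      | succ j ih => rw [pow_succ, gpl_mul, hg, ih]
    have h6 : gpl (AlgEquiv.ofRingEquiv (f := (g ^ ℓ).toRingEquiv) h4 : Gal(M/N')) V = V :=
      h5 ℓ
    have h7 : (g ^ ℓ) ζ = ζ := hτ _ h6
    rw [h2] at h7
    have h8 : ζ ^ (t ^ ℓ) = ζ ^ t := by
      have h9 : (((t ^ ℓ : ℕ) : ℤ) - t) % ℓ = 0 := by
        rw [← ZMod.intCast_zmod_eq_zero_iff_dvd _ ℓ |>.trans (Int.dvd_iff_emod_eq_zero) ]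
        push_cast
        rw [ZMod.pow_card, sub_self]
      have h10 : t ^ ℓ ≡ t [MOD ℓ] := by
        rw [Nat.ModEq.comm]
        exact (Nat.modEq_iff_dvd).2 (Int.dvd_of_emod_eq_zero h9)
      rw [← Nat.mod_add_div (t ^ ℓ) ℓ, h10, pow_add, pow_mul, hζ.pow_eq_one, one_pow, mul_one]
      conv_rhs => rw [← Nat.mod_add_div t ℓ, pow_add, pow_mul, hζ.pow_eq_one, one_pow, mul_one]
    rw [← ht, ← h8, h7]
  -- the action on the roots
  have hgβ : (g β) ^ ℓ = algebraMap N M y := by rw [← map_pow, hβ, AlgEquiv.commutes]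
  obtain ⟨a, ha⟩ := root_eq hℓ.pos hζ hy' hβ hgβ
  have hne : σ (algebraMap N M y) ≠ 0 := (map_ne_zero σ).2 hy'
  have hσβ : (σ β) ^ ℓ = algebraMap N M y ^ m * algebraMap N M z ^ ℓ := by
    rw [← map_pow, hβ, hσy]
  have hβz : (β ^ m * algebraMap N M z) ^ ℓ = algebraMap N M y ^ m * algebraMap N M z ^ ℓ := by
    rw [mul_pow, ← pow_mul, mul_comm m, pow_mul, hβ]
  obtain ⟨j, hj⟩ := root_eq hℓ.pos hζ (by rw [← hσy]; exact hne) hβz hσβ
  -- the commutator
  have hc : ∀ x : N', ((σ * tof F g)⁻¹ * (tof F g * σ) : Gal(M/F)).toRingEquiv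
      (algebraMap N' M x) = algebraMap N' M x := by
    intro x
    change ((σ * tof F g)⁻¹ : Gal(M/F)) (g (σ (algebraMap N' M x))) = algebraMap N' M x
    rw [← hcomm]
    change ((σ * tof F g)⁻¹ * (σ * tof F g) : Gal(M/F)) (algebraMap N' M x) = _
    rw [inv_mul_cancel]
    rfl
  have hgV : gpl (tof F g) V = V := hg
  have h1V : gpl ((σ * tof F g)⁻¹ * (tof F g * σ)) V = V := by
    have h2 : gpl ((σ * tof F g)⁻¹ * (σ * tof F g)) V = V := by
      rw [inv_mul_cancel, gpl_one]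
    rw [gpl_mul, gpl_mul, hgV, hσV] at h2
    rw [gpl_mul, gpl_mul, hσV, hgV, h2]
  have h2 : ((σ * tof F g)⁻¹ * (tof F g * σ) : Gal(M/F)) β = β :=
    hfix (AlgEquiv.ofRingEquiv
      (f := ((σ * tof F g)⁻¹ * (tof F g * σ) : Gal(M/F)).toRingEquiv) hc) h1V
  have h3 : g (σ β) = σ (g β) := by
    have h4 := congrArg (fun x => (σ * tof F g : Gal(M/F)) x) h2
    rw [← AlgEquiv.mul_apply, mul_inv_cancel_left] at h4
    exact h4
  have h4 : g (σ β) = ζ ^ (a * m) * σ β := by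
    rw [hj, map_mul, map_mul, map_pow, map_pow, hgζ, AlgEquiv.commutes, ha, mul_pow, ← pow_mul]
    ring
  have h5 : σ (g β) = ζ ^ (n * a) * σ β := by
    rw [ha, map_mul, map_pow, hσζ, ← pow_mul]
  rw [h4, h5] at h3
  have hσβ0 : σ β ≠ 0 := (map_ne_zero σ).2 hβ0
  have h6 := mul_right_cancel₀ hσβ0 h3
  have h7 : a * m ≡ n * a [MOD ℓ] := by
    have h8 := hζ.pow_inj (Nat.mod_lt (a * m) hℓ.pos) (Nat.mod_lt (n * a) hℓ.pos) (by
      rw [← Nat.mod_add_div (a * m) ℓ, ← Nat.mod_add_div (n * a) ℓ, pow_add, pow_add, pow_mul,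
        pow_mul, hζ.pow_eq_one, one_pow, one_pow, mul_one, mul_one] at h6
      exact h6)
    exact h8
  have h8 : (ℓ : ℤ) ∣ (a : ℤ) * ((m : ℤ) - n) := by
    have h9 := (Nat.modEq_iff_dvd).1 h7.symm
    push_cast at h9
    have e : (a : ℤ) * ((m : ℤ) - n) = (a : ℤ) * m - n * a := by ring
    rw [e]
    exact h9
  have hp : Prime (ℓ : ℤ) := Nat.prime_iff_prime_int.1 hℓ
  have h9 : ℓ ∣ a := Int.natCast_dvd_natCast.1 ((hp.dvd_or_dvd h8).resolve_right hmn)
  rw [ha, (hζ.pow_eq_one_iff_dvd a).2 h9, one_mul]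

end Pool.Agent.Lib.MP_1a91b9_nuY.TS
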