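import Pool.Agent.Lib.MP_1a91b9_nuY.TS.Pl
import Pool.Agent.Lib.MP_1a91b9_nuY.TS.Od
import Pool.Agent.Lib.MP_1a91b9_nuY.TP.Chi

/-!
# Descent of local `ℓ`-th powers for the classes of the twist
-/

set_option autoImplicit false
set_option linter.unusedSectionVars false

namespace Pool.Agent.Lib.MP_1a91b9_nuY.TS

open NumberField IsDedekindDomain WeierstrassCurve Pool.Agent.Lib.MP_1a91b9_nuT
open Pool.Agent.Lib.MP_1a91b9_nuX Pool.Agent.Lib.MP_1a91b9_nuX.DB Pool.Agent.Lib.MP_1a91b9_nuX.DX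
open Pool.Agent.Lib.MP_1a91b9_nuX.DS
open Pool.Agent.Lib.MP_1a91b9_nuW.W Pool.Agent.Lib.MP_1a91b9_nuW.DS

variable [CD]

universe u

theorem up_up {A B C : Type u} [Field A] [NumberField A] [Algebra K A] [DecidableEq A]
    [Field B] [NumberField B] [Algebra K B] [DecidableEq B] [Field C] [NumberField C] [Algebra K C]
    [DecidableEq C] [Algebra A B] [Algebra B C] [Algebra A C] [IsScalarTower K A B]
    [IsScalarTower K B C] [IsScalarTower K A C] [IsScalarTower A B C] (P : Pt A) :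
    up C (up B P) = up C P := by
  rcases cases_pt P with rfl | ⟨x, y, h, rfl⟩
  · rw [up_zero, up_zero, up_zero]
  · obtain ⟨h1, e1⟩ := pm_mk (IsScalarTower.toAlgHom K A B) x y h
    obtain ⟨h2, e2⟩ := pm_mk (IsScalarTower.toAlgHom K B C) _ _ h1
    obtain ⟨h3, e3⟩ := pm_mk (IsScalarTower.toAlgHom K A C) x y h
    rw [up, up, up, e1, e2, e3, mk_inj]
    exact ⟨(IsScalarTower.algebraMap_apply A B C x).symm,
      (IsScalarTower.algebraMap_apply A B C y).symm⟩

variable [HC]

section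
variable {F F' G G' N N' : Type u}
  [Field F] [NumberField F] [Algebra K F]
  [Field F'] [NumberField F'] [Algebra K F'] [Algebra F F'] [IsScalarTower K F F'] [IsGalois F F']
  [Field G] [NumberField G] [Algebra K G] [Algebra F G] [IsScalarTower K F G] [IsGalois F G]
  [Field G'] [NumberField G'] [Algebra K G'] [Algebra F' G'] [IsScalarTower K F' G']
  [IsGalois F' G'] [Algebra G G'] [IsScalarTower K G G'] [IsGalois G G'] [Algebra F G']
  [IsScalarTower F F' G'] [IsScalarTower F G G'] [IsScalarTower K F G'] [IsGalois F G']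
  [Field N] [NumberField N] [Algebra K N] [Algebra F N] [Algebra G N] [IsScalarTower K F N]
  [IsScalarTower K G N] [IsScalarTower F G N] [DecidableEq N] [IsGalois F N] [IsGalois G N]
  [Field N'] [NumberField N'] [Algebra K N'] [Algebra F' N'] [Algebra G' N']
  [IsScalarTower K F' N'] [IsScalarTower K G' N'] [IsScalarTower F' G' N'] [DecidableEq N']
  [IsGalois F' N'] [IsGalois G' N'] [Algebra F N'] [Algebra G N'] [Algebra N N']
  [IsScalarTower F F' N'] [IsScalarTower K F N'] [IsScalarTower K G N'] [IsScalarTower G G' N']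
  [IsScalarTower K N N'] [IsScalarTower F N N'] [IsScalarTower G N N'] [IsScalarTower F G N']
  [IsScalarTower F G' N'] [IsGalois F N'] [IsGalois G N'] [IsGalois N N']
  {ϖ : 𝓞 K} {ℓ q : ℕ} (hQ : SqF F F' G G' ℓ) {P : Pt N} {P' : Pt N'}
  (hS : Sq G G' ϖ ℓ P P')
  {k : Gal(G/F) → 𝓞 K} (h : PD ϖ ℓ q) {b : 𝓞 K} {Ψ : Ideal (𝓞 F) → 𝓞 K}

include hQ hS h in
/-- descent of local `ℓ`-th powers -/
theorem pl_stepK (A : AWK F G k b ϖ ℓ Ψ) (hE' : EP ℓ G') (hcop : IsCoprime ϖ (cj ϖ))
    {a z : N'ˣ} {a1 : Nˣ} (hi : IsoK G k ℓ P a1) (h1 : inU N N' a1 = a * z ^ ℓ)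
    (W : HeightOneSpectrum (𝓞 N')) (hW : W.valuation N' (algebraMap K N' (ϖ : K)) < 1)
    (hna : IsCoprime (Ψ (W.under (𝓞 F)).asIdeal - 1) (ℓ : 𝓞 K)) (hpl : PL ℓ W (a : N')) :
    PL ℓ (W.under (𝓞 N)) (a1 : N) := by
  classical
  have hℓ := h.hl
  have hk := A.kap
  have e2 : algebraMap N N' (a1 : N) = (a : N') * (z : N') ^ ℓ := by
    have e3 := congrArg (fun u : N'ˣ => (u : N')) h1
    simpa [inU_coe] using e3
  have hpl' : PL ℓ W (algebraMap N N' (a1 : N)) := by
    rw [e2]
    exact hpl.mul_pow _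
  -- the fields
  obtain ⟨N₂, iM1, iM2, iM3, iM4, iM5, iM6, iM7, P₂, hP₂⟩ := exists_full' (pd_cj h) G' hE'
  obtain ⟨M, j1, j2, j3, j4, j5, j6, t1, t2, t3, hG, ζ, α, β', hζ, hα, -⟩ :=
    exists_comp F G' N' N₂ hℓ.pos (algebraMap N N' (a1 : N)) 0
  let aN : Algebra N M := ((algebraMap N' M).comp (algebraMap N N')).toAlgebra
  have s1 : IsScalarTower N N' M := IsScalarTower.of_algebraMap_eq fun _ => rfl
  let aG : Algebra G M := ((algebraMap G' M).comp (algebraMap G G')).toAlgebra
  have s2 : IsScalarTower G G' M := IsScalarTower.of_algebraMap_eq fun _ => rfl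
  let aK : Algebra K M := ((algebraMap F M).comp (algebraMap K F)).toAlgebra
  have s3 : IsScalarTower K F M := IsScalarTower.of_algebraMap_eq fun _ => rfl
  have s4 : IsScalarTower F N' M := IsScalarTower.of_algebraMap_eq fun x => by
    rw [IsScalarTower.algebraMap_apply F G' M, IsScalarTower.algebraMap_apply G' N' M,
      IsScalarTower.algebraMap_apply F G' N']
  have s5 : IsScalarTower F N M := IsScalarTower.of_algebraMap_eq fun x => by
    rw [IsScalarTower.algebraMap_apply F N' M, IsScalarTower.algebraMap_apply N N' M,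
      IsScalarTower.algebraMap_apply F N N']
  have s6 : IsScalarTower F G M := IsScalarTower.of_algebraMap_eq fun x => by
    rw [IsScalarTower.algebraMap_apply F G' M, IsScalarTower.algebraMap_apply G G' M,
      IsScalarTower.algebraMap_apply F G G']
  have s7 : IsScalarTower K N' M := IsScalarTower.of_algebraMap_eq fun x => by
    rw [IsScalarTower.algebraMap_apply K F M, IsScalarTower.algebraMap_apply F N' M,
      IsScalarTower.algebraMap_apply K F N']
  have s8 : IsScalarTower K N M := IsScalarTower.of_algebraMap_eq fun x => by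
    rw [IsScalarTower.algebraMap_apply K F M, IsScalarTower.algebraMap_apply F N M,
      IsScalarTower.algebraMap_apply K F N]
  have s9 : IsScalarTower K G M := IsScalarTower.of_algebraMap_eq fun x => by
    rw [IsScalarTower.algebraMap_apply K F M, IsScalarTower.algebraMap_apply F G M,
      IsScalarTower.algebraMap_apply K F G]
  have s10 : IsScalarTower K N₂ M := IsScalarTower.of_algebraMap_eq fun x => by
    rw [IsScalarTower.algebraMap_apply K F M, IsScalarTower.algebraMap_apply F G' M,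
      ← IsScalarTower.algebraMap_apply K F G', IsScalarTower.algebraMap_apply G' N₂ M,
      ← IsScalarTower.algebraMap_apply K G' N₂]
  have s11 : IsScalarTower G N M := IsScalarTower.of_algebraMap_eq fun x => by
    rw [IsScalarTower.algebraMap_apply G G' M, IsScalarTower.algebraMap_apply G' N' M,
      ← IsScalarTower.algebraMap_apply G G' N', IsScalarTower.algebraMap_apply N N' M,
      ← IsScalarTower.algebraMap_apply G N N']
  have g1 : IsGalois N M := IsGalois.tower_top_of_isGalois F N M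
  have g2 : IsGalois N' M := IsGalois.tower_top_of_isGalois F N' M
  obtain ⟨V, hV⟩ := over_exists (L := M) W
  have hy' : algebraMap N N' (a1 : N) ≠ 0 := (map_ne_zero _).2 a1.ne_zero
  obtain ⟨β, hβ1, hβ2⟩ := hpl'.use hℓ.pos hy' V hV hζ hα
  have hβN : β ^ ℓ = algebraMap N M (a1 : N) := by
    rw [hβ1, ← IsScalarTower.algebraMap_apply N N' M]
  -- the Frobenius automorphism over `F`
  have hVϖ : V.valuation M (algebraMap K M (ϖ : K)) < 1 := by
    rw [IsScalarTower.algebraMap_apply K N' M, val_map_lt, hV]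
    exact hW
  have hnb : ¬ ϖ ∣ b := fun e => h.prime.not_isUnit (A.bl.isUnit_of_dvd' e h.dvd)
  have hnc : ¬ ϖ ∣ cj ϖ := fun e => h.prime.not_isUnit (hcop.isUnit_of_dvd' dvd_rfl e)
  have hVb := pd_val_coprime h hVϖ hnb
  have hVc := pd_val_coprime h hVϖ hnc
  obtain ⟨g, hgV, hΨ, hgR⟩ := exists_frK (L := M) A.fr A.bad V hVb
  have hVF : V.under (𝓞 F) = W.under (𝓞 F) := by rw [← hV, under_under]
  rw [hVF] at hΨ hgR
  set c := psi F (W.under (𝓞 F)).asIdeal with hc
  -- the actions on the points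
  have hR₂ : Ord (cj ϖ) (up M P₂) := (ord_up M).2 hP₂.ord
  have hR : Ord ϖ (up M P') := (ord_up M).2 hS.full'.ord
  have h2 : ga g (up M P₂) = sm M c (up M P₂) :=
    (hgR (cj ϖ) (up M P₂) hVc ((hR₂ (cj ϖ)).2 dvd_rfl)).1
  obtain ⟨d, hd1, hd2⟩ := gal_sm (k := F) h.prime.ne_zero hR g
  have hgζ' : (g ζ) ^ ℓ = 1 := by rw [← map_pow, hζ.pow_eq_one, map_one]
  have hNZ : NeZero ℓ := ⟨hℓ.ne_zero⟩
  obtain ⟨x, -, hx⟩ := hζ.eq_pow_of_pow_eq_one hgζ'
  have hchi := TP.chi_pt (F := F) h hR hR₂ hζ g hd2 h2 hx.symm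
  -- the class
  have hPP : up N' P = P' := hS.map
  have hup : up M P' = up M P := by
    rw [← hPP]
    exact up_up P
  have hrs : rs G (rs N g) = rs G g := by
    apply AlgEquiv.ext
    intro y
    apply (algebraMap G M).injective
    have e1 : algebraMap G M (rs G (rs N g) y) = g (algebraMap G M y) := by
      rw [IsScalarTower.algebraMap_apply G N M, rs_apply, rs_apply,
        ← IsScalarTower.algebraMap_apply G N M]
    rw [e1, rs_apply]
  set u := k (rs G g) with hu
  have hgP : gk G k (rs N g) P = sm N (u * d) P := by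
    rw [hu, ← hrs]
    refine gk_of_ga ?_
    rw [hup] at hd2
    have e1 := ga_up (N := N) g P
    rw [hd2, ← up_sm, up_inj] at e1
    exact e1.symm
  have hqℓ : q = ℓ := by
    rcases pd_cases h with ⟨h3, -⟩ | ⟨-, h3⟩
    · exact h3
    · exact absurd (by rw [h3]) hnc
  have hdeg : Deg1 ϖ ℓ := ⟨h.hl, by rw [h.norm, hqℓ]⟩
  obtain ⟨m, -, hm⟩ := hdeg.exists_int (u * d)
  obtain ⟨A', hA'⟩ := hi
  have hcl : el ℓ (sg (rs N g) a1) = el ℓ (a1 ^ m) := by
    have e1 := hA' 1 1 (by rw [gk_one hk, sm_one])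
    have e3 : el ℓ (sg (1 : Gal(N/F)) a1) = el ℓ a1 := rfl
    have e4 : A' (u * d) = A' (m : 𝓞 K) := by
      have e6 : A' (u * d) = A' (u * d - m) + A' (m : 𝓞 K) := by
        rw [← map_add, sub_add_cancel]
      rw [e6, IsoK.map_dvd hk h hS.full hA' hm]
      exact zero_add (A' (m : 𝓞 K))
    have e5 : A' (m : 𝓞 K) = m • A' 1 := by
      rw [← map_nsmul, nsmul_eq_mul, mul_one]
    rw [hA' _ _ hgP, e4, e5, el_pow, ← e1, e3]
  obtain ⟨z0, hz0⟩ := el_eq.1 hcl
  have hσy : g (algebraMap N M (a1 : N)) =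
      algebraMap N M (a1 : N) ^ m * algebraMap N M (z0 : N) ^ ℓ := by
    have e1 := congrArg (fun y : Nˣ => algebraMap N M (y : N)) hz0
    simp only [sg_coe, Units.val_mul, Units.val_pow_eq_pow_val, map_mul, map_pow] at e1
    rw [← e1, rs_apply]
  have hmn : ¬ (ℓ : ℤ) ∣ (m : ℤ) - x := by
    intro hd
    apply not_dvd_of_cop (pd_cj h) hna
    have e1 : cj ϖ ∣ (((m : ℤ) - x : ℤ) : 𝓞 K) := by
      obtain ⟨r, hr⟩ := hd
      rw [hr]
      push_cast
      exact (pd_cj h).dvd.mul_right _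
    have e3 : cj ϖ ∣ cj u * cj d - m := by
      have e4 := cj_dvd_iff.2 hm
      rw [map_sub, map_mul, map_natCast] at e4
      exact e4
    have e5 : cj ϖ ∣ cj d * (cj u - c) := by
      have e6 : cj d * (cj u - c) = (cj u * cj d - m) + (((m : ℤ) - x : ℤ) : 𝓞 K) +
          ((x : 𝓞 K) - c * cj d) := by
        push_cast
        ring
      rw [e6]
      exact dvd_add (dvd_add e3 e1) hchi
    have e7 : ¬ cj ϖ ∣ cj d := by
      intro e8
      exact h.prime.not_isUnit (hd1.isUnit_of_dvd' (cj_dvd_iff.1 e8) dvd_rfl)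
    have e8 := ((pd_cj h).prime.dvd_or_dvd e5).resolve_left e7
    have e9 : Ψ (W.under (𝓞 F)).asIdeal - 1 = -(u * (cj u - c)) := by
      rw [hΨ, mul_sub, hk.nrm]
      ring
    rw [e9]
    exact (dvd_neg).2 (e8.mul_left _)
  refine ⟨M, j1, j2, aN, g1, V, β, ?_, hβN, ?_⟩
  · rw [← hV, under_under]
  · intro s hs
    refine pl_descK (F := F) (N' := N') hℓ hS.deg' V a1.ne_zero hζ hβN hβ2 g hgV hσy hx.symm hmn
      s hs fun y => ?_
    have e1 := comm_F hQ hS h (rs N' s) (rs N' g) y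
    have e3 := congrArg (algebraMap N' M) e1
    rw [rs_apply (N := N') (L := M) g, rs_apply, rs_apply, rs_apply] at e3
    exact e3

end

end Pool.Agent.Lib.MP_1a91b9_nuY.TS
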