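import Pool.Agent.Lib.MP_1a91b9_nuY.TS.Comm

/-!
# The Selmer group of the twist: a fixed class
-/

set_option autoImplicit false
set_option linter.unusedSectionVars false

namespace Pool.Agent.Lib.MP_1a91b9_nuY.TS

open NumberField IsDedekindDomain WeierstrassCurve Pool.Agent.Lib.MP_1a91b9_nuT
open Pool.Agent.Lib.MP_1a91b9_nuX Pool.Agent.Lib.MP_1a91b9_nuX.DB Pool.Agent.Lib.MP_1a91b9_nuX.DX
open Pool.Agent.Lib.MP_1a91b9_nuX.DS
open Pool.Agent.Lib.MP_1a91b9_nuW.W Pool.Agent.Lib.MP_1a91b9_nuW.DS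

variable [CD]

universe u

section
variable {F G N : Type u} [Field F] [NumberField F] [Algebra K F]
  [Field G] [NumberField G] [Algebra K G] [Algebra F G] [IsScalarTower K F G] [IsGalois F G]
  [Field N] [NumberField N] [Algebra K N] [Algebra F N] [Algebra G N] [IsScalarTower K F N]
  [IsScalarTower K G N] [IsScalarTower F G N] [DecidableEq N]
  {k : Gal(G/F) → 𝓞 K} (hk : Kap F G k) {ϖ : 𝓞 K} {ℓ q : ℕ} (h : PD ϖ ℓ q) {P : Pt N}
  (hF : Full G ϖ P)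
include hk h hF

theorem VWK.mul {a b : Nˣ} (ha : VWK G k ϖ ℓ P a) (hb : VWK G k ϖ ℓ P b) :
    VWK G k ϖ ℓ P (a * b) :=
  ⟨vw_mul h hF ha.vw hb.vw, IsoK.mul hk h hF ha.iso hb.iso⟩

theorem VWK.inv {a : Nˣ} (ha : VWK G k ϖ ℓ P a) : VWK G k ϖ ℓ P a⁻¹ :=
  ⟨vw_inv h hF ha.vw, IsoK.inv hk h hF ha.iso⟩

end

section
variable {F F' G G' N N' : Type u}
  [Field F] [NumberField F] [Algebra K F]
  [Field F'] [NumberField F'] [Algebra K F'] [Algebra F F'] [IsScalarTower K F F'] [IsGalois F F']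
  [Field G] [NumberField G] [Algebra K G] [Algebra F G] [IsScalarTower K F G] [IsGalois F G]
  [Field G'] [NumberField G'] [Algebra K G'] [Algebra F' G'] [IsScalarTower K F' G']
  [IsGalois F' G'] [Algebra G G'] [IsScalarTower K G G'] [IsGalois G G'] [Algebra F G']
  [IsScalarTower F F' G'] [IsScalarTower F G G'] [IsScalarTower K F G'] [IsGalois F G']
  [Field N] [NumberField N] [Algebra K N] [Algebra F N] [Algebra G N] [IsScalarTower K F N]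
  [IsScalarTower K G N] [IsScalarTower F G N] [DecidableEq N] [IsGalois F N] [IsGalois G N]
  [Field N'] [NumberField N'] [Algebra K N'] [Algebra F' N'] [Algebra G' N']
  [IsScalarTower K F' N'] [IsScalarTower K G' N'] [IsScalarTower F' G' N'] [DecidableEq N']
  [IsGalois F' N'] [IsGalois G' N'] [Algebra F N'] [Algebra G N'] [Algebra N N']
  [IsScalarTower F F' N'] [IsScalarTower K F N'] [IsScalarTower K G N'] [IsScalarTower G G' N']
  [IsScalarTower K N N'] [IsScalarTower F N N'] [IsScalarTower G N N'] [IsScalarTower F G N']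
  [IsScalarTower F G' N'] [IsGalois F N'] [IsGalois G N'] [IsGalois N N']
  {ϖ : 𝓞 K} {ℓ q : ℕ} (hQ : SqF F F' G G' ℓ) {P : Pt N} {P' : Pt N'}
  (hS : Sq G G' ϖ ℓ P P')
  {k' : Gal(G'/F') → 𝓞 K} (hk' : Kap F' G' k') (h : PD ϖ ℓ q)
include hQ hS hk' h

omit hk' in
theorem IsoK.gamma (γ : Gal(N'/N)) {y : N'ˣ} (hy : IsoK G' k' ℓ P' y) :
    IsoK G' k' ℓ P' (sg γ y) := by
  obtain ⟨A, hA⟩ := hy
  refine ⟨(elm ℓ (Units.map (γ : N' →* N'))).comp A, fun σ c hc => ?_⟩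
  have e1 : sg σ (sg γ y) = sg γ (sg σ y) := by
    refine Units.ext ?_
    rw [sg_coe, sg_coe, sg_coe, sg_coe]
    exact comm_F' hQ hS h γ σ _
  rw [e1, AddMonoidHom.comp_apply, ← hA σ c hc, elm_el]
  rfl

omit hk' in
theorem VWK.gamma (γ : Gal(N'/N)) {y : N'ˣ} (hy : VWK G' k' ϖ ℓ P' y) :
    VWK G' k' ϖ ℓ P' (sg γ y) :=
  ⟨vw_gamma h hS γ hy.vw, IsoK.gamma hQ hS h γ hy.iso⟩

theorem exists_fixedK {γ : Gal(N'/N)} (hγ : γ ^ ℓ = 1) {y : N'ˣ} (hy : VWK G' k' ϖ ℓ P' y)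
    (hn : ¬ ∃ z : N'ˣ, y = z ^ ℓ) : ∃ a b : N'ˣ, VWK G' k' ϖ ℓ P' a ∧ (¬ ∃ z : N'ˣ, a = z ^ ℓ) ∧
      sg γ a = a * b ^ ℓ := by
  have h1 : ∀ (n : ℕ) (a : N'ˣ),
      (elm ℓ (Units.map (γ : N' →* N')) : El ℓ N' → El ℓ N')^[n] (el ℓ a) =
        el ℓ (sg (γ ^ n) a) := by
    intro n
    induction n with
    | zero =>
      intro a
      rw [Function.iterate_zero, pow_zero]
      rfl
    | succ n ih =>
      intro a
      rw [Function.iterate_succ, Function.comp_apply, elm_el, ih, pow_succ]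
      rfl
  obtain ⟨z, ⟨a, ha, rfl⟩, hz0, hgz⟩ := nilp h.hl (nsmul_el (ℓ := ℓ) (F := N'))
    (elm ℓ (Units.map (γ : N' →* N')))
    (by
      intro x
      obtain ⟨a, rfl⟩ := el_surj x
      rw [h1, hγ]
      rfl) {z | ∃ a : N'ˣ, VWK G' k' ϖ ℓ P' a ∧ el ℓ a = z}
    (by
      rintro _ ⟨a, ha, rfl⟩
      refine ⟨sg γ a * a⁻¹, VWK.mul hk' h hS.full' (VWK.gamma hQ hS h γ ha)
        (VWK.inv hk' h hS.full' ha), ?_⟩
      rw [el_mul, el_inv, elm_el, sub_eq_add_neg]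
      rfl) ⟨y, hy, rfl⟩ (fun h0 => hn (el_eq_zero.1 h0))
  rw [elm_el] at hgz
  obtain ⟨b, hb⟩ := el_eq.1 hgz
  exact ⟨a, b, ha, fun h0 => hz0 (el_eq_zero.2 h0), hb⟩

end

end Pool.Agent.Lib.MP_1a91b9_nuY.TS
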