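import Pool.Agent.Lib.MP_1a91b9_nuY.TS.PlStep

/-!
# The induction step for the Selmer group of the twist
-/

set_option autoImplicit false
set_option linter.unusedSectionVars false

namespace Pool.Agent.Lib.MP_1a91b9_nuY.TS

open NumberField IsDedekindDomain WeierstrassCurve Pool.Agent.Lib.MP_1a91b9_nuT
open Pool.Agent.Lib.MP_1a91b9_nuX Pool.Agent.Lib.MP_1a91b9_nuX.DB Pool.Agent.Lib.MP_1a91b9_nuX.DX
open Pool.Agent.Lib.MP_1a91b9_nuX.DS
open Pool.Agent.Lib.MP_1a91b9_nuW.W Pool.Agent.Lib.MP_1a91b9_nuW.DS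

variable [CD]

universe u

variable [HC]

section
variable {F F' G G' N N' : Type u}
  [Field F] [NumberField F] [Algebra K F]
  [Field F'] [NumberField F'] [Algebra K F'] [Algebra F F'] [IsScalarTower K F F'] [IsGalois F F']
  [Field G] [NumberField G] [Algebra K G] [Algebra F G] [IsScalarTower K F G] [IsGalois F G]
  [Field G'] [NumberField G'] [Algebra K G'] [Algebra F' G'] [IsScalarTower K F' G']
  [IsGalois F' G'] [Algebra G G'] [IsScalarTower K G G'] [IsGalois G G'] [Algebra F G']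
  [IsScalarTower F F' G'] [IsScalarTower F G G'] [IsScalarTower K F G'] [IsGalois F G']
  [Field N] [NumberField N] [Algebra K N] [Algebra F N] [Algebra G N] [IsScalarTower K F N]
  [IsScalarTower K G N] [IsScalarTower F G N] [DecidableEq N] [IsGalois F N] [IsGalois G N]
  [Field N'] [NumberField N'] [Algebra K N'] [Algebra F' N'] [Algebra G' N']
  [IsScalarTower K F' N'] [IsScalarTower K G' N'] [IsScalarTower F' G' N'] [DecidableEq N']
  [IsGalois F' N'] [IsGalois G' N'] [Algebra F N'] [Algebra G N'] [Algebra N N']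
  [IsScalarTower F F' N'] [IsScalarTower K F N'] [IsScalarTower K G N'] [IsScalarTower G G' N']
  [IsScalarTower K N N'] [IsScalarTower F N N'] [IsScalarTower G N N'] [IsScalarTower F G N']
  [IsScalarTower F G' N'] [IsGalois F N'] [IsGalois G N'] [IsGalois N N']
  {ϖ : 𝓞 K} {ℓ q : ℕ} (hQ : SqF F F' G G' ℓ) {P : Pt N} {P' : Pt N'}
  (hS : Sq G G' ϖ ℓ P P')
  {k : Gal(G/F) → 𝓞 K} {k' : Gal(G'/F') → 𝓞 K} (h : PD ϖ ℓ q) {b : 𝓞 K}
  {Ψ : Ideal (𝓞 F) → 𝓞 K}

include hQ hS h in
theorem vw_stepK (A : AWK F G k b ϖ ℓ Ψ) (hE' : EP ℓ G')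
    (hu : ¬ IsCoprime ϖ (cj ϖ) → ∀ v : HeightOneSpectrum (𝓞 F'), v.valuation F' (ℓ : F') < 1 →
      v.asIdeal.ramificationIdx (𝓞 F) = 1)
    (ha : ∀ v : HeightOneSpectrum (𝓞 F'), v.asIdeal.ramificationIdx (𝓞 F) ≠ 1 →
      IsCoprime (Ψ (v.under (𝓞 F)).asIdeal - 1) (ℓ : 𝓞 K)) {a z : N'ˣ} {a1 : Nˣ}
    (haV : VWK G' k' ϖ ℓ P' a) (hi : IsoK G k ℓ P a1) (h1 : inU N N' a1 = a * z ^ ℓ) :
    VWK G k ϖ ℓ P a1 := by
  have hod := od_stepK hQ hS h A ha haV.vw.od hi h1
  have e2 : algebraMap N N' (a1 : N) = (a : N') * (z : N') ^ ℓ := by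
    have e3 := congrArg (fun u : N'ˣ => (u : N')) h1
    simpa [inU_coe] using e3
  have hWlt : ∀ (w : HeightOneSpectrum (𝓞 N)) (W : HeightOneSpectrum (𝓞 N')),
      W.under (𝓞 N) = w → w.valuation N (algebraMap K N (ϖ : K)) < 1 →
      W.valuation N' (algebraMap K N' (ϖ : K)) < 1 := by
    intro w W hW hw
    rw [IsScalarTower.algebraMap_apply K N N', val_map_lt, hW]
    exact hw
  have hFF : ∀ W : HeightOneSpectrum (𝓞 N'), (W.under (𝓞 G')).under (𝓞 G) =
      (W.under (𝓞 N)).under (𝓞 G) := by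
    intro W
    rw [under_under, under_under]
  have hnb : ¬ ϖ ∣ b := fun e => h.prime.not_isUnit (A.bl.isUnit_of_dvd' e h.dvd)
  have hur : ∀ w : HeightOneSpectrum (𝓞 N), w.valuation N (algebraMap K N (ϖ : K)) < 1 →
      (w.under (𝓞 G)).asIdeal.ramificationIdx (𝓞 F) = 1 := by
    intro w hw
    refine A.ur _ ?_
    rw [← val_map_eq, ← IsScalarTower.algebraMap_apply K G N]
    exact pd_val_coprime h hw hnb
  -- the ramified places
  have hram : ∀ (w : HeightOneSpectrum (𝓞 N)) (W : HeightOneSpectrum (𝓞 N')),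
      W.under (𝓞 N) = w → w.valuation N (algebraMap K N (ϖ : K)) < 1 →
      (W.under (𝓞 G')).asIdeal.ramificationIdx (𝓞 G) ≠ 1 → IsCoprime ϖ (cj ϖ) ∧
        IsCoprime (Ψ (W.under (𝓞 F)).asIdeal - 1) (ℓ : 𝓞 K) := by
    intro w W hW hw hne
    obtain ⟨h5, h6⟩ := ram_GF hQ h A.deg (W.under (𝓞 G')) (by rw [hFF, hW]; exact hur w hw)
    have h7 : ((W.under (𝓞 G')).under (𝓞 F')).asIdeal.ramificationIdx (𝓞 F) ≠ 1 := by
      intro h8
      rw [h6, h8] at h5
      exact hne h5.symm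
    refine ⟨?_, ?_⟩
    · by_contra hcop
      refine h7 (hu hcop _ ?_)
      rw [under_under, ← val_map_lt, map_natCast, h.val_ell (hWlt w W hW hw)]
      exact hWlt w W hW hw
    · have h8 := ha _ h7
      rw [under_under, under_under] at h8
      exact h8
  refine ⟨⟨hod, IsoK.iso A.kap hi, fun w hw hv => ?_, fun w hw hv => ?_⟩, hi⟩
  · obtain ⟨W, hW⟩ := over_exists (L := N') w
    have hWl := hWlt w W hW hw
    have e3 := od_ell G G' ℓ (W.under (𝓞 G'))
    rw [hFF W, hW, hv, mul_one] at e3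
    by_cases he : (W.under (𝓞 G')).asIdeal.ramificationIdx (𝓞 G) = 1
    · rw [he, Nat.cast_one] at e3
      have hr : W.asIdeal.ramificationIdx (𝓞 N) = 1 :=
        (ram_cases h hS W).resolve_right (fun hn => hn he)
      have h4 := wloc_down h W hr hWl a1.ne_zero z.ne_zero (hod _) (haV.vw.loc W hWl e3) e2
      rwa [hW] at h4
    · have hne : od (W.under (𝓞 G')) (ℓ : G') ≠ 1 := by
        rw [e3]
        exact_mod_cast he
      obtain ⟨hcop, hna⟩ := hram w W hW hw he
      have h4 := pl_stepK hQ hS h A hE' hcop hi h1 W hWl hna (haV.vw.pl W hWl hne)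
      rw [hW] at h4
      exact pl_wloc h w hw a1.ne_zero h4
  · obtain ⟨W, hW⟩ := over_exists (L := N') w
    have hWl := hWlt w W hW hw
    have hvG : (w.under (𝓞 G)).valuation G (ℓ : G) < 1 := by
      rw [← val_map_lt, map_natCast, h.val_ell hw]
      exact hw
    have hvl : (w.under (𝓞 F)).valuation F (ℓ : F) < 1 := by
      rw [← val_map_lt, map_natCast, h.val_ell hw]
      exact hw
    have hcop : IsCoprime ϖ (cj ϖ) := by
      by_contra hc
      exact hv (A.un hc _ hvG)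
    have hl0 : (ℓ : G) ≠ 0 := Nat.cast_ne_zero.2 h.hl.ne_zero
    have hpos := (val_lt_one_iff _ hl0).1 hvG
    have e3 := od_ell G G' ℓ (W.under (𝓞 G'))
    rw [hFF W, hW] at e3
    have hr := ramIdx_pos (k := G) (W.under (𝓞 G'))
    have hne : od (W.under (𝓞 G')) (ℓ : G') ≠ 1 := by
      rw [e3]
      intro h5
      have h6 : (1 : ℤ) ≤ ((W.under (𝓞 G')).asIdeal.ramificationIdx (𝓞 G) : ℤ) := by
        exact_mod_cast hr
      have h7 : 2 ≤ od (w.under (𝓞 G)) (ℓ : G) := by omega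
      nlinarith
    have hvF : od (w.under (𝓞 F)) (ℓ : F) ≠ 1 := by
      have e4 := od_ell F G ℓ (w.under (𝓞 G))
      rw [hur w hw, Nat.cast_one, one_mul, under_under] at e4
      rw [← e4]
      exact hv
    have hna2 : IsCoprime (Ψ (W.under (𝓞 F)).asIdeal - 1) (ℓ : 𝓞 K) := by
      rw [← under_under (N := N), hW]
      exact A.na _ hvl hvF
    have h4 := pl_stepK hQ hS h A hE' hcop hi h1 W hWl hna2 (haV.vw.pl W hWl hne)
    rwa [hW] at h4

end

section
variable {F F' G G' : Type u}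
  [Field F] [NumberField F] [Algebra K F]
  [Field F'] [NumberField F'] [Algebra K F'] [Algebra F F'] [IsScalarTower K F F'] [IsGalois F F']
  [Field G] [NumberField G] [Algebra K G] [Algebra F G] [IsScalarTower K F G] [IsGalois F G]
  [Field G'] [NumberField G'] [Algebra K G'] [Algebra F' G'] [IsScalarTower K F' G']
  [IsGalois F' G'] [Algebra G G'] [IsScalarTower K G G'] [IsGalois G G'] [Algebra F G']
  [IsScalarTower F F' G'] [IsScalarTower F G G'] [IsScalarTower K F G'] [IsGalois F G']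
  {ϖ : 𝓞 K} {ℓ q : ℕ} (hQ : SqF F F' G G' ℓ)
  {k : Gal(G/F) → 𝓞 K} {k' : Gal(G'/F') → 𝓞 K} (hk' : Kap F' G' k')
  (hkk : ∀ s : Gal(G'/F'), k' s = k (rs G (toF F s))) (h : PD ϖ ℓ q) {b : 𝓞 K}
  {Ψ : Ideal (𝓞 F) → 𝓞 K}
include hQ hk' hkk h

/-- the step for the group `VTK` -/
theorem vtk_step (A : AWK F G k b ϖ ℓ Ψ)
    (hu : ¬ IsCoprime ϖ (cj ϖ) → ∀ v : HeightOneSpectrum (𝓞 F'), v.valuation F' (ℓ : F') < 1 →
      v.asIdeal.ramificationIdx (𝓞 F) = 1)
    (ha : ∀ v : HeightOneSpectrum (𝓞 F'), v.asIdeal.ramificationIdx (𝓞 F) ≠ 1 →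
      IsCoprime (Ψ (v.under (𝓞 F)).asIdeal - 1) (ℓ : 𝓞 K)) : VTK F' G' k' ϖ ℓ := by
  intro N' _ _ _ _ _ _ _ _ _ _ P' hP' y hy
  have hϖ := h.prime.ne_zero
  let _ : Algebra F N' := ((algebraMap F' N').comp (algebraMap F F')).toAlgebra
  have : IsScalarTower F F' N' := IsScalarTower.of_algebraMap_eq fun x => rfl
  have : IsScalarTower K F N' := IsScalarTower.of_algebraMap_eq fun x => by
    rw [IsScalarTower.algebraMap_apply K F' N', IsScalarTower.algebraMap_apply K F F',
      IsScalarTower.algebraMap_apply F F' N']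
  let _ : Algebra G N' := ((algebraMap G' N').comp (algebraMap G G')).toAlgebra
  have : IsScalarTower G G' N' := IsScalarTower.of_algebraMap_eq fun x => rfl
  have : IsScalarTower K G N' := IsScalarTower.of_algebraMap_eq fun x => by
    rw [IsScalarTower.algebraMap_apply K G' N', IsScalarTower.algebraMap_apply K G G',
      IsScalarTower.algebraMap_apply G G' N']
  have : IsScalarTower F G' N' := IsScalarTower.of_algebraMap_eq fun x => by
    rw [IsScalarTower.algebraMap_apply F F' N', IsScalarTower.algebraMap_apply F' G' N',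
      IsScalarTower.algebraMap_apply F F' G']
  have : IsScalarTower F G N' := IsScalarTower.of_algebraMap_eq fun x => by
    rw [IsScalarTower.algebraMap_apply F G' N', IsScalarTower.algebraMap_apply G G' N',
      IsScalarTower.algebraMap_apply F G G']
  have : IsGalois G' N' := IsGalois.tower_top_of_isGalois F' G' N'
  obtain ⟨hG, N, _, _, _, _, _, _, _, _, _, hG1, hG2, P, hS⟩ := exists_sq h hP' hQ.deg'
  have : IsGalois F N' := sq_galois (F := F) (F' := G') hϖ hP'
  let _ : Algebra F N := ((algebraMap G N).comp (algebraMap F G)).toAlgebra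
  have : IsScalarTower F G N := IsScalarTower.of_algebraMap_eq fun x => rfl
  have : IsScalarTower K F N := IsScalarTower.of_algebraMap_eq fun x => by
    rw [IsScalarTower.algebraMap_apply K G N, IsScalarTower.algebraMap_apply K F G,
      IsScalarTower.algebraMap_apply F G N]
  have : IsScalarTower F N N' := IsScalarTower.of_algebraMap_eq fun x => by
    rw [IsScalarTower.algebraMap_apply F G N', IsScalarTower.algebraMap_apply G N N',
      IsScalarTower.algebraMap_apply F G N]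
  have : IsGalois F N := sq_galois (F := F) (F' := G) hϖ hS.full
  by_contra hn
  have hE' := ep_step (F := G) (F' := G') h.hl hQ.deg' A.ep
  obtain ⟨γ, hγ1, hγ2, -⟩ := exists_gamma h hS
  obtain ⟨a, b', haV, han, hab⟩ := exists_fixedK hQ hS hk' h hγ2 hy hn
  have hb := nm_one' h hS hE' hγ2 haV.vw.iso hab
  have : FiniteDimensional N N' := Module.Finite.of_restrictScalars_finite ℚ N N'
  obtain ⟨a0, d, h0⟩ := exists_a0 hS.deg' hγ1 hγ2 hab hb
  obtain ⟨a1, z, hi, h1⟩ := exists_a1K hQ hS A.kap hk' hkk h A.deg haV.iso h0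
  obtain ⟨x, hx⟩ := A.vt N P hS.full a1 (vw_stepK hQ hS h A hE' hu ha haV hi h1)
  apply han
  refine ⟨inU N N' x * z⁻¹, ?_⟩
  rw [hx, map_pow] at h1
  rw [mul_pow, inv_pow, h1, mul_assoc, mul_inv_cancel, mul_one]

end

end Pool.Agent.Lib.MP_1a91b9_nuY.TS
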